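import Pool.Agent.Lib.MP_305fdd_al.Fr.Div.Burn
import Pool.Agent.Lib.MP_305fdd_al.Fr.X.Core

/-!
# MP_305fdd_al, F_r: Lemma B2

A group `A` with a representation in `SL₂(O)` which is trivial modulo an ideal `m` with finite
quotients `O ⧸ m ^ k` and `⋂ m ^ k = 0` (`O` of characteristic two) and whose image is not
commutative has at least three nontrivial homomorphisms to `ℤ/2`.
-/

set_option autoImplicit false

namespace Pool.Agent.FrC

open Matrix Pool.Agent.FrDiv Pool.Agent.FrN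

section ring

variable {O : Type} [CommRing O] [Algebra (ZMod 2) O] (m : Ideal O)
variable {A : Type} [Group A] (ρ : A →* SpecialLinearGroup (Fin 2) O)

/-- if the characters of order two are detected by one element, the image is commutative -/
theorem comm_of_detect (hfin : ∀ k, Finite (O ⧸ m ^ k)) (hcap : ∀ x : O, (∀ k, x ∈ m ^ k) → x = 0)
    (hρ : ∀ x i j, (ρ x).1 i j - (1 : Matrix (Fin 2) (Fin 2) O) i j ∈ m) (g : A)
    (hg : ∀ χ : A →* Multiplicative (ZMod 2), χ g = 1 → χ = 1) (x y : A) :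
    ρ x * ρ y = ρ y * ρ x := by
  have key : ∀ k, ∃ n n' : ℤ, (∀ i j, (ρ (g ^ n)).1 i j - (ρ x).1 i j ∈ m ^ k) ∧
      (∀ i j, (ρ (g ^ n')).1 i j - (ρ y).1 i j ∈ m ^ k) := by
    intro k
    have h0 : ∀ z : A, ∃ n : ℤ, ∀ i j, (ρ (g ^ n)).1 i j - (ρ z).1 i j ∈ m ^ k := by
      intro z
      obtain ⟨w, hw⟩ := approx m ρ hfin hρ (b := 1) (fun _ => g) (fun χ h => hg χ (h 0)) k z
      have h1 : FreeGroup.lift (fun _ : Fin 1 => g) w ∈ Subgroup.zpowers g := by
        have h2 : (FreeGroup.lift (fun _ : Fin 1 => g)).range ≤ Subgroup.zpowers g := by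
          refine FreeGroup.range_lift_le ?_
          rintro _ ⟨_, rfl⟩
          exact Subgroup.mem_zpowers g
        exact h2 ⟨w, rfl⟩
      obtain ⟨n, hn⟩ := Subgroup.mem_zpowers_iff.1 h1
      exact ⟨n, fun i j => by rw [hn]; exact hw i j⟩
    obtain ⟨n, hn⟩ := h0 x
    obtain ⟨n', hn'⟩ := h0 y
    exact ⟨n, n', hn, hn'⟩
  apply Subtype.ext
  ext i j
  rw [← sub_eq_zero]
  apply hcap
  intro k
  obtain ⟨n, n', hx, hy⟩ := key k
  have hf := hfin k
  let q := Ideal.Quotient.mk (m ^ k)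
  have ex : ∀ i j, q ((ρ (g ^ n)).1 i j) = q ((ρ x).1 i j) := fun i j => Ideal.Quotient.eq.2 (hx i j)
  have ey : ∀ i j, q ((ρ (g ^ n')).1 i j) = q ((ρ y).1 i j) :=
    fun i j => Ideal.Quotient.eq.2 (hy i j)
  have hc : (ρ (g ^ n)).1 * (ρ (g ^ n')).1 = (ρ (g ^ n')).1 * (ρ (g ^ n)).1 := by
    have h := congrArg Subtype.val
      (show ρ (g ^ n) * ρ (g ^ n') = ρ (g ^ n') * ρ (g ^ n) by
        rw [← map_mul, ← map_mul, ← _root_.zpow_add, ← _root_.zpow_add, add_comm])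
    exact h
  have hc2 := congrArg q (congrFun (congrFun hc i) j)
  rw [← Ideal.Quotient.eq]
  change q (((ρ x).1 * (ρ y).1) i j) = q (((ρ y).1 * (ρ x).1) i j)
  rw [Matrix.mul_apply, Matrix.mul_apply] at hc2 ⊢
  rw [map_sum, map_sum] at hc2 ⊢
  simp only [map_mul, ex, ey] at hc2 ⊢
  exact hc2

/-- LEMMA B2, for a ring. -/
theorem exists_two (hfin : ∀ k, Finite (O ⧸ m ^ k)) (hcap : ∀ x : O, (∀ k, x ∈ m ^ k) → x = 0)
    (hρ : ∀ x i j, (ρ x).1 i j - (1 : Matrix (Fin 2) (Fin 2) O) i j ∈ m)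
    (hnc : ∃ x y, ρ x * ρ y ≠ ρ y * ρ x) :
    ∃ χ₁ χ₂ : A →* Multiplicative (ZMod 2), χ₁ ≠ 1 ∧ χ₂ ≠ 1 ∧ χ₁ ≠ χ₂ := by
  by_contra hcon
  push Not at hcon
  obtain ⟨x, y, hxy⟩ := hnc
  apply hxy
  by_cases h1 : ∃ χ₀ : A →* Multiplicative (ZMod 2), χ₀ ≠ 1
  · obtain ⟨χ₀, h0⟩ := h1
    have h2 : ∃ g, χ₀ g ≠ 1 := by
      by_contra h3
      push Not at h3
      exact h0 (MonoidHom.ext h3)
    obtain ⟨g, hg⟩ := h2
    refine comm_of_detect m ρ hfin hcap hρ g (fun χ hχ => ?_) x y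
    by_contra h4
    have h5 := hcon χ₀ χ h0 h4
    rw [h5] at hg
    exact hg hχ
  · push Not at h1
    exact comm_of_detect m ρ hfin hcap hρ 1 (fun χ _ => h1 χ) x y

/-- two different nontrivial characters of order two give at least four homomorphisms -/
theorem four_le [Finite (A →* Multiplicative (ZMod 2))]
    (h : ∃ χ₁ χ₂ : A →* Multiplicative (ZMod 2), χ₁ ≠ 1 ∧ χ₂ ≠ 1 ∧ χ₁ ≠ χ₂) :
    4 ≤ Nat.card (A →* Multiplicative (ZMod 2)) := by
  obtain ⟨χ₁, χ₂, h1, h2, h12⟩ := h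
  have hsq : ∀ χ : A →* Multiplicative (ZMod 2), χ * χ = 1 := by
    intro χ
    ext g
    have : ∀ z : Multiplicative (ZMod 2), z * z = 1 := by decide
    exact this (χ g)
  let f : Fin 4 → (A →* Multiplicative (ZMod 2)) := ![1, χ₁, χ₂, χ₁ * χ₂]
  have hf : Function.Injective f := by
    have e1 : χ₁ * χ₂ ≠ 1 := by
      intro h
      apply h12
      calc χ₁ = χ₁ * (χ₂ * χ₂) := by rw [hsq, mul_one]
        _ = (χ₁ * χ₂) * χ₂ := by rw [mul_assoc]
        _ = χ₂ := by rw [h, one_mul]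
    have e2 : χ₁ ≠ χ₁ * χ₂ := by
      intro h
      exact h2 (mul_eq_left.1 h.symm)
    have e3 : χ₂ ≠ χ₁ * χ₂ := by
      intro h
      exact h1 (mul_eq_right.1 h.symm)
    intro i j hij
    fin_cases i <;> fin_cases j <;> simp [f] at hij ⊢
    · exact h1 hij.symm
    · exact h2 hij.symm
    · exact e1 hij.symm
    · exact h1 hij
    · exact h12 hij
    · exact h2 hij
    · exact h2 hij
    · exact h12 hij.symm
    · exact h1 hij
    · exact e1 hij
    · exact h2 hij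
    · exact h1 hij
  have := Nat.card_le_card_of_injective f hf
  simpa using this

end ring

section field

variable {Γ F : Type} [Group Γ] [Field F] [Algebra (ZMod 2) F]

/-- LEMMA B2, for a finitely generated linear group over a field of characteristic two with the
trivial representation as a specialisation; `f : A → Γ` is any homomorphism with noncommutative
image. -/
theorem exists_two_field [hΓ : Group.FG Γ] (ρ : Γ →* SpecialLinearGroup (Fin 2) F)
    (φ : OO 2 ρ →+* ZMod 2)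
    (hφ : ∀ g i j, φ ⟨(ρ g).1 i j, mem_OO ρ g i j⟩ = (1 : Matrix (Fin 2) (Fin 2) (ZMod 2)) i j)
    {A : Type} [Group A] (f : A →* Γ) (hnc : ∃ x y, ρ (f x) * ρ (f y) ≠ ρ (f y) * ρ (f x)) :
    ∃ χ₁ χ₂ : A →* Multiplicative (ZMod 2), χ₁ ≠ 1 ∧ χ₂ ≠ 1 ∧ χ₁ ≠ χ₂ := by
  have hFG := FrX.OO_fg (p := 2) ρ
  have hFT : Algebra.FiniteType (ZMod 2) (OO 2 ρ) := (OO 2 ρ).fg_iff_finiteType.1 hFG
  have hN : IsNoetherianRing (OO 2 ρ) := Algebra.FiniteType.isNoetherianRing (ZMod 2) _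
  let m : Ideal (OO 2 ρ) := RingHom.ker φ
  have hsurj : Function.Surjective φ := ZMod.ringHom_surjective φ
  have hfin1 : Finite (OO 2 ρ ⧸ m) :=
    Finite.of_equiv _ (RingHom.quotientKerEquivOfSurjective hsurj).symm.toEquiv
  have hfin : ∀ k, Finite (OO 2 ρ ⧸ m ^ k) := fun k =>
    Ideal.finite_quotient_pow (IsNoetherian.noetherian m) k
  have hm : m ≠ ⊤ := by
    intro h
    have : (1 : OO 2 ρ) ∈ m := by rw [h]; trivial
    rw [RingHom.mem_ker, map_one] at this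
    exact one_ne_zero this
  have hK : ⨅ k : ℕ, m ^ k = ⊥ := Ideal.iInf_pow_eq_bot_of_isDomain m hm
  have hcap : ∀ x : OO 2 ρ, (∀ k, x ∈ m ^ k) → x = 0 := by
    intro x hx
    have : x ∈ (⨅ k : ℕ, m ^ k : Ideal (OO 2 ρ)) := by
      rw [Ideal.mem_iInf]
      exact hx
    rw [hK] at this
    exact this
  -- the representation over `O`
  let MO : Γ → Matrix (Fin 2) (Fin 2) (OO 2 ρ) := fun g => Matrix.of fun i j =>
    ⟨(ρ g).1 i j, mem_OO ρ g i j⟩
  have hMO : ∀ g i j, ((MO g i j : OO 2 ρ) : F) = (ρ g).1 i j := fun g i j => rfl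
  have hMOmul : ∀ x y, MO (x * y) = MO x * MO y := by
    intro x y
    ext i j
    rw [hMO, map_mul, Matrix.mul_apply]
    show ((ρ x).1 * (ρ y).1) i j = _
    rw [Matrix.mul_apply]
    simp only [AddSubmonoidClass.coe_finsetSum, MulMemClass.coe_mul, hMO]
  have hMO1 : MO 1 = 1 := by
    ext i j
    rw [hMO, map_one]
    show (1 : Matrix (Fin 2) (Fin 2) F) i j = _
    rw [Matrix.one_apply, Matrix.one_apply]
    split_ifs <;> rfl
  have hMOdet : ∀ g, (MO g).det = 1 := by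
    intro g
    apply Subtype.ext
    have := (ρ g).2
    rw [Matrix.det_fin_two] at this ⊢
    exact this
  let ρO : Γ →* SpecialLinearGroup (Fin 2) (OO 2 ρ) :=
    { toFun := fun g => ⟨MO g, hMOdet g⟩
      map_one' := Subtype.ext hMO1
      map_mul' := fun x y => Subtype.ext (hMOmul x y) }
  refine exists_two m (ρO.comp f) hfin hcap ?_ ?_
  · intro x i j
    rw [RingHom.mem_ker, map_sub]
    have h1 : φ ((ρO.comp f x).1 i j) = (1 : Matrix (Fin 2) (Fin 2) (ZMod 2)) i j := hφ (f x) i j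
    rw [h1, Matrix.one_apply, Matrix.one_apply]
    split_ifs <;> simp
  · obtain ⟨x, y, hxy⟩ := hnc
    refine ⟨x, y, fun h => hxy ?_⟩
    apply Subtype.ext
    ext i j
    have h1 := congrArg (fun M : SpecialLinearGroup (Fin 2) (OO 2 ρ) => ((M.1 i j : OO 2 ρ) : F)) h
    have e : ∀ z w : A, (((ρO.comp f z * ρO.comp f w).1 i j : OO 2 ρ) : F) =
        (ρ (f z) * ρ (f w)).1 i j := by
      intro z w
      rw [← map_mul, ← map_mul, ← map_mul]
      rfl
    rw [← e, ← e]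
    exact h1

/-- LEMMA B2 for the class `HB`. -/
theorem exists_two_HB {b : ℕ} {K : Type} [Field K] [Algebra (ZMod 2) K] [Algebra K F] {T : Γ → K}
    {ρ : Γ →* SpecialLinearGroup (Fin 2) F} (h : HB 2 b Γ K F T ρ)
    {A : Type} [Group A] (f : A →* Γ) (hnc : ∃ x y, ρ (f x) * ρ (f y) ≠ ρ (f y) * ρ (f x)) :
    ∃ χ₁ χ₂ : A →* Multiplicative (ZMod 2), χ₁ ≠ 1 ∧ χ₂ ≠ 1 ∧ χ₁ ≠ χ₂ := by
  have := h.fg
  obtain ⟨φ, hφ⟩ := h.pts (ZMod 2) 1
  exact exists_two_field ρ φ.toRingHom (fun g i j => hφ g i j) f hnc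

end field

end Pool.Agent.FrC
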