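import Pool.Agent.Lib.MP_305fdd_al.Fr.C.Split2

/-!
# BLOCK COUNT in the frame of section SP (helper16)

`Pool.Agent.FrC.countS` : `S : GG Γ` with the universal property `S.UP`, finitely generated vertex
groups, `F` a finite field of characteristic `2`, `E₀` a set of edges with elements `g e` and
conditions `D e` on traces as in `SafeE`:

* `edge` : `S.C e = ⟨g e⟩`, `D e t ↔ t = 0`, from both ends of `e` a non-abelian vertex is reachable
  without `e`;
* `rootb`, `roota` : one end of `e` is a leaf with the infinite cyclic group `⟨g e⟩`, `S.C e` is generated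
  by the `m`-th power, `D e (T h)` implies `h ^ m = 1`, a non-abelian vertex is reachable from the other
  end without `e`.

Then `q²` divides the number of `ρ : Γ →* SL₂(F)` with `D e (T (ρ (g e)))` for some `e ∈ E₀`.
The hypothesis `hB` is LEMMA B2 (helper95).
-/

set_option autoImplicit false

namespace Pool.Agent.FrC

open Pool.Agent.FrS

variable {Γ : Type} [Group Γ]

/-- safe edges -/
inductive SafeE (S : GG Γ) (F : Type) [Field F] (e : S.E) (g : Γ) (D : F → Prop) : Prop
  | edge (hC : S.C e = Subgroup.zpowers g) (hD : ∀ t, D t ↔ t = 0)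
      (ha : ∃ w, Rch (del S e) (S.a e) w ∧ S.NA w)
      (hb : ∃ w, Rch (del S e) (S.b e) w ∧ S.NA w) : SafeE S F e g D
  | rootb (m : ℕ) (hne : S.a e ≠ S.b e) (hleaf : ∀ e', S.a e' = S.b e ∨ S.b e' = S.b e → e' = e)
      (hG : S.G (S.b e) = Subgroup.zpowers g) (hinf : ∀ k : ℤ, g ^ k = 1 → k = 0)
      (hC : S.C e = Subgroup.zpowers (S.s e * g ^ m * (S.s e)⁻¹))
      (hD : ∀ h : S2 F, D h.1.trace → h ^ m = 1)
      (ha : ∃ w, Rch (del S e) (S.a e) w ∧ S.NA w) : SafeE S F e g D
  | roota (m : ℕ) (hne : S.a e ≠ S.b e) (hleaf : ∀ e', S.a e' = S.a e ∨ S.b e' = S.a e → e' = e)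
      (hG : S.G (S.a e) = Subgroup.zpowers g) (hinf : ∀ k : ℤ, g ^ k = 1 → k = 0)
      (hC : S.C e = Subgroup.zpowers (g ^ m))
      (hD : ∀ h : S2 F, D h.1.trace → h ^ m = 1)
      (hb : ∃ w, Rch (del S e) (S.b e) w ∧ S.NA w) : SafeE S F e g D

theorem SafeE.mem {S : GG Γ} {F : Type} [Field F] {e : S.E} {g : Γ} {D : F → Prop}
    (h : SafeE S F e g D) : g ∈ S.G (S.a e) ∨ g ∈ S.G (S.b e) := by
  cases h with
  | edge hC _ _ _ => exact Or.inl (S.Ca e (by rw [hC]; exact Subgroup.mem_zpowers g))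
  | rootb m _ _ hG _ _ _ _ => exact Or.inr (by rw [hG]; exact Subgroup.mem_zpowers g)
  | roota m _ _ hG _ _ _ _ => exact Or.inl (by rw [hG]; exact Subgroup.mem_zpowers g)

/-- (B2) for the group of closed paths -/
theorem b2_cl {S : GG Γ}
    (hB : ∀ (A : Type) [Group A] (f : A →* Γ), (∃ x y, f x * f y ≠ f y * f x) → B2 A)
    {u : S.V} (h : ∃ w, Rch S u w ∧ S.NA w) : B2 (cl S u) := by
  obtain ⟨w, ⟨p, hp⟩, hw⟩ := h
  rw [GG.NA] at hw
  push Not at hw
  obtain ⟨x, hx, y, hy, hxy⟩ := hw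
  refine hB (cl S u) (iCl S u) ⟨⟨p * PG.vx S w ⟨x, hx⟩ * p⁻¹, (hp.grp _).trans hp.symm⟩,
    ⟨p * PG.vx S w ⟨y, hy⟩ * p⁻¹, (hp.grp _).trans hp.symm⟩, ?_⟩
  rw [iCl_apply, iCl_apply]
  simp only [map_mul, map_inv, PG.nat_vx]
  intro h
  apply hxy
  generalize PG.nat S p = c at h
  calc x * y = c⁻¹ * (c * x * c⁻¹ * (c * y * c⁻¹)) * c := by group
    _ = c⁻¹ * (c * y * c⁻¹ * (c * x * c⁻¹)) * c := by rw [h]
    _ = y * x := by group

/-- elements of a reachable vertex group are conjugate to closed paths -/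
theorem conj_cl {S : GG Γ} {u w : S.V} (h : Rch S u w) {x : Γ} (hx : x ∈ S.G w) :
    ∃ y : cl S u, IsConj (iCl S u y) x := by
  obtain ⟨p, hp⟩ := h
  refine ⟨⟨p * PG.vx S w ⟨x, hx⟩ * p⁻¹, (hp.grp _).trans hp.symm⟩, ?_⟩
  rw [iCl_apply]
  simp only [map_mul, map_inv, PG.nat_vx]
  exact (isConj_iff.mpr ⟨PG.nat S p, rfl⟩).symm

theorem conj_cb {S : GG Γ} {e : S.E} {w : S.V} (h : Rch (del S e) (S.b e) w) {x : Γ}
    (hx : x ∈ S.G w) : ∃ y : cl (del S e) (S.b e), IsConj (iCb S e y) x := by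
  obtain ⟨y, hy⟩ := conj_cl (S := del S e) h hx
  exact ⟨y, (isConj_iff.mpr ⟨S.s e, rfl⟩).symm.trans hy⟩

/-- a leaf is reached only from itself -/
theorem leaf_rch {S : GG Γ} {v w : S.V} (hl : ∀ e, S.a e ≠ v ∧ S.b e ≠ v) (h : Rch S v w) :
    w = v := by
  obtain ⟨p, hp⟩ := h
  induction hp with
  | one => rfl
  | grp _ _ ih => exact ih
  | fwd e _ ih => exact absurd ih (hl e).1
  | bwd e _ ih => exact absurd ih (hl e).2

section

variable {S : GG Γ} {F : Type} [Field F] [Algebra (ZMod 2) F] [Finite F]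

/-- from safe edges to one-edge splittings -/
theorem SafeE.safe (hU : S.UP) (hfg : ∀ v, (S.G v).FG)
    (hB : ∀ (A : Type) [Group A] (f : A →* Γ), (∃ x y, f x * f y ≠ f y * f x) → B2 A)
    {E₀ : Set S.E} {g : S.E → Γ} {D : S.E → F → Prop}
    (hs : ∀ e ∈ E₀, SafeE S F e (g e) (D e)) (i : E₀) :
    Safe (F := F) (fun e : E₀ => g e.1) (fun e : E₀ => D e.1) i := by
  obtain ⟨e, he⟩ := i
  have hreach : ∀ w, Rch (del S e) (S.a e) w ∨ Rch (del S e) (S.b e) w := fun w =>
    reach e (hU.gen (S.a e) w 1)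
  have hfg' : ∀ v, ((del S e).G v).FG := hfg
  cases hs e he with
  | edge hC hD ha hb =>
    have hzm : g e ∈ S.C e := by rw [hC]; exact Subgroup.mem_zpowers _
    by_cases hcon : Rch (del S e) (S.a e) (S.b e)
    · obtain ⟨P⟩ := paths (del S e) (S.a e)
      refine Safe.hn
        { A := cl (del S e) (S.a e)
          finA := fin_cl hfg' _
          iA := iCl (del S e) (S.a e)
          s := stl e P
          w₁ := zA hzm
          w₂ := zB hzm P hcon
          hw := stl_conj hzm P hcon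
          hz := by rw [iA_zA]
          univ := fun α x hx => hn_univ hU hcon hC hzm P α x hx
          hB := b2_cl hB ha } hD ?_
      intro j _
      have hj := (hs j.1 j.2).mem
      have hr : ∀ w, Rch (del S e) (S.a e) w := fun w =>
        (hreach w).elim id fun h => hcon.trans h
      rcases hj with hj | hj
      · exact conj_cl (hr _) hj
      · exact conj_cl (hr _) hj
    · refine Safe.am
        { A := cl (del S e) (S.a e)
          C := cl (del S e) (S.b e)
          finA := fin_cl hfg' _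
          finC := fin_cl hfg' _
          iA := iCl (del S e) (S.a e)
          iC := iCb S e
          a := zA hzm
          c := zC hzm
          hac := zAC hzm
          hz := by rw [iA_zA]
          univ := fun α γ h => am_univ hU hcon hC hzm α γ h
          hA := (b2_cl hB ha).exists_char _
          hC := (b2_cl hB hb).exists_char _ } hD ?_
      intro j _
      have hj := (hs j.1 j.2).mem
      rcases hj with hj | hj
      · exact (hreach _).imp (fun h => conj_cl h hj) (fun h => conj_cb h hj)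
      · exact (hreach _).imp (fun h => conj_cl h hj) (fun h => conj_cb h hj)
  | rootb m hne hleaf hG hinf hC hD ha =>
    have hzm : S.s e * g e ^ m * (S.s e)⁻¹ ∈ S.C e := by rw [hC]; exact Subgroup.mem_zpowers _
    have hl : ∀ e' : (del S e).E, (del S e).a e' ≠ S.b e ∧ (del S e).b e' ≠ S.b e := fun e' =>
      ⟨fun h => e'.2 (hleaf e'.1 (Or.inl h)), fun h => e'.2 (hleaf e'.1 (Or.inr h))⟩
    have hcon : ¬ Rch (del S e) (S.a e) (S.b e) := fun h =>
      hne (leaf_rch (S := del S e) hl h.symm)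
    have hgm : g e ∈ S.G (S.b e) := by rw [hG]; exact Subgroup.mem_zpowers _
    obtain ⟨l1, l2⟩ := leaf_hom (S := del S e) hl hG hinf hgm (Q := S2 F)
    set βc : cl (del S e) (S.b e) :=
      ⟨PG.vx (del S e) (S.b e) ⟨g e, hgm⟩, PPth.vx _ _⟩ with hβc
    have hc : zC hzm = βc ^ m := by
      apply Subtype.ext
      change PG.vx (del S e) (S.b e) _ = (PG.vx (del S e) (S.b e) ⟨g e, hgm⟩) ^ m
      rw [← map_pow]
      congr 1
      apply Subtype.ext
      change (S.s e)⁻¹ * (S.s e * g e ^ m * (S.s e)⁻¹) * S.s e = g e ^ m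
      group
    have hib : iCb S e βc = S.s e * g e * (S.s e)⁻¹ := by
      rw [iCb_apply]
      change S.s e * PG.nat (del S e) (PG.vx (del S e) (S.b e) ⟨g e, hgm⟩) * (S.s e)⁻¹ = _
      rw [PG.nat_vx]
    refine Safe.rt
      { A := cl (del S e) (S.a e)
        finA := fin_cl hfg' _
        iA := iCl (del S e) (S.a e)
        m := m
        a := zA hzm
        b := S.s e * g e * (S.s e)⁻¹
        hab := by rw [iA_zA, ← hib, ← map_pow, ← hc, ← zAC hzm, iA_zA]
        hz := (isConj_iff.mpr ⟨S.s e, rfl⟩).symm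
        univ := ?_
        hA := (b2_cl hB ha).exists_char _ } hD ?_
    · intro α x hx
      obtain ⟨γ, hγ⟩ := l1 x
      have h1 : α (zA hzm) = γ (zC hzm) := by rw [hx, hc, map_pow, hγ]
      obtain ⟨ρ, ⟨h2, h3⟩, h4⟩ := am_univ hU hcon hC hzm α γ h1
      refine ⟨ρ, ⟨h2, ?_⟩, ?_⟩
      · rw [← hib, ← MonoidHom.comp_apply, h3, hγ]
      · rintro ρ' ⟨h5, h6⟩
        refine h4 ρ' ⟨h5, l2 _ _ ?_⟩
        rw [hγ]
        change ρ' (iCb S e βc) = x
        rw [hib, h6]
    · intro j hj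
      have hje : j.1 ≠ e := fun h => hj (Subtype.ext h)
      have hr : ∀ w, w ≠ S.b e → Rch (del S e) (S.a e) w := fun w hw =>
        (hreach w).elim id fun h => absurd (leaf_rch (S := del S e) hl h) hw
      rcases (hs j.1 j.2).mem with hm | hm
      · exact conj_cl (hr _ fun h => hje (hleaf j.1 (Or.inl h))) hm
      · exact conj_cl (hr _ fun h => hje (hleaf j.1 (Or.inr h))) hm
  | roota m hne hleaf hG hinf hC hD hb =>
    have hzm : g e ^ m ∈ S.C e := by rw [hC]; exact Subgroup.mem_zpowers _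
    have hl : ∀ e' : (del S e).E, (del S e).a e' ≠ S.a e ∧ (del S e).b e' ≠ S.a e := fun e' =>
      ⟨fun h => e'.2 (hleaf e'.1 (Or.inl h)), fun h => e'.2 (hleaf e'.1 (Or.inr h))⟩
    have hcon : ¬ Rch (del S e) (S.a e) (S.b e) := fun h =>
      hne (leaf_rch (S := del S e) hl h).symm
    have hgm : g e ∈ S.G (S.a e) := by rw [hG]; exact Subgroup.mem_zpowers _
    obtain ⟨l1, l2⟩ := leaf_hom (S := del S e) hl hG hinf hgm (Q := S2 F)
    set βc : cl (del S e) (S.a e) :=
      ⟨PG.vx (del S e) (S.a e) ⟨g e, hgm⟩, PPth.vx _ _⟩ with hβc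
    have hc : zA hzm = βc ^ m := by
      apply Subtype.ext
      change PG.vx (del S e) (S.a e) _ = (PG.vx (del S e) (S.a e) ⟨g e, hgm⟩) ^ m
      rw [← map_pow]
      rfl
    have hib : iCl (del S e) (S.a e) βc = g e := by
      rw [iCl_apply]
      change PG.nat (del S e) (PG.vx (del S e) (S.a e) ⟨g e, hgm⟩) = _
      rw [PG.nat_vx]
    refine Safe.rt
      { A := cl (del S e) (S.b e)
        finA := fin_cl hfg' _
        iA := iCb S e
        m := m
        a := zC hzm
        b := g e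
        hab := by rw [← zAC hzm, iA_zA]
        hz := IsConj.refl _
        univ := ?_
        hA := (b2_cl hB hb).exists_char _ } hD ?_
    · intro α x hx
      obtain ⟨γ, hγ⟩ := l1 x
      have h1 : γ (zA hzm) = α (zC hzm) := by rw [hx, hc, map_pow, hγ]
      obtain ⟨ρ, ⟨h2, h3⟩, h4⟩ := am_univ hU hcon hC hzm γ α h1
      refine ⟨ρ, ⟨h3, ?_⟩, ?_⟩
      · rw [← hib, ← MonoidHom.comp_apply, h2, hγ]
      · rintro ρ' ⟨h5, h6⟩
        refine h4 ρ' ⟨l2 _ _ ?_, h5⟩
        rw [hγ]
        change ρ' (iCl (del S e) (S.a e) βc) = x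
        rw [hib]
        exact h6
    · intro j hj
      have hje : j.1 ≠ e := fun h => hj (Subtype.ext h)
      have hr : ∀ w, w ≠ S.a e → Rch (del S e) (S.b e) w := fun w hw =>
        (hreach w).elim (fun h => absurd (leaf_rch (S := del S e) hl h) hw) id
      rcases (hs j.1 j.2).mem with hm | hm
      · exact conj_cb (hr _ fun h => hje (hleaf j.1 (Or.inl h))) hm
      · exact conj_cb (hr _ fun h => hje (hleaf j.1 (Or.inr h))) hm

/-- BLOCK COUNT -/
theorem countS [Group.FG Γ] (hU : S.UP) (hfg : ∀ v, (S.G v).FG)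
    (hB : ∀ (A : Type) [Group A] (f : A →* Γ), (∃ x y, f x * f y ≠ f y * f x) → B2 A)
    {E₀ : Set S.E} {g : S.E → Γ} {D : S.E → F → Prop}
    (hs : ∀ e ∈ E₀, SafeE S F e (g e) (D e)) :
    Nat.card F ^ 2 ∣ Nat.card {ρ : Γ →* S2 F // ∃ e ∈ E₀, D e (ρ (g e)).1.trace} := by
  have : CharP F 2 := charP_of_injective_algebraMap (algebraMap (ZMod 2) F).injective 2
  have h := count (F := F) (fun e : E₀ => g e.1) (fun e : E₀ => D e.1)
    (SafeE.safe hU hfg hB hs)
  have e : ∀ ρ : Γ →* S2 F, (∃ e ∈ E₀, D e (ρ (g e)).1.trace) ↔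
      ∃ e : E₀, D e.1 (ρ (g e.1)).1.trace := by
    intro ρ
    simp
  rw [Nat.card_congr (Equiv.subtypeEquivRight e)]
  exact h

end

end Pool.Agent.FrC
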