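import Pool.Agent.Lib.MP_305fdd_al.Fr.C.PG

/-!
# Cutting a graph of subgroups along an edge (block COUNT, helper16)

`del S e₀` : the graph of subgroups without the edge `e₀`.  Families on `del S e₀` from
homomorphisms of the group of closed paths, gluing, and the path lemma.
-/

set_option autoImplicit false

namespace Pool.Agent.FrC

open Pool.Agent.FrS

variable {Γ : Type} [Group Γ]

/-- `S` without the edge `e₀` -/
@[reducible] def del (S : GG Γ) (e₀ : S.E) : GG Γ where
  V := S.V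
  E := {e : S.E // e ≠ e₀}
  G := S.G
  a e := S.a e.1
  b e := S.b e.1
  s e := S.s e.1
  C e := S.C e.1
  Ca e := S.Ca e.1
  Cb e := S.Cb e.1

/-- reachability -/
def Rch (S : GG Γ) (u w : S.V) : Prop := ∃ g, PPth S u w g

theorem Rch.refl {S : GG Γ} (u : S.V) : Rch S u u := ⟨1, .one u⟩

theorem Rch.fwd {S : GG Γ} {u : S.V} (e : S.E) (h : Rch S u (S.a e)) : Rch S u (S.b e) := by
  obtain ⟨g, hg⟩ := h
  exact ⟨_, hg.fwd e⟩

theorem Rch.bwd {S : GG Γ} {u : S.V} (e : S.E) (h : Rch S u (S.b e)) : Rch S u (S.a e) := by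
  obtain ⟨g, hg⟩ := h
  exact ⟨_, hg.bwd e⟩

theorem Rch.iff {S : GG Γ} {u : S.V} (e : S.E) : Rch S u (S.a e) ↔ Rch S u (S.b e) :=
  ⟨Rch.fwd e, Rch.bwd e⟩

theorem Rch.symm {S : GG Γ} {u w : S.V} (h : Rch S u w) : Rch S w u := by
  obtain ⟨g, hg⟩ := h
  exact ⟨_, hg.symm⟩

theorem Rch.trans {S : GG Γ} {u v w : S.V} (h : Rch S u v) (h' : Rch S v w) : Rch S u w := by
  obtain ⟨g, hg⟩ := h
  obtain ⟨k, hk⟩ := h'
  exact ⟨_, hg.trans hk⟩

/-- every vertex is reachable from one of the ends of `e₀` -/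
theorem reach {S : GG Γ} (e₀ : S.E) {w : S.V} {g : Γ} (h : S.Pth (S.a e₀) w g) :
    Rch (del S e₀) (S.a e₀) w ∨ Rch (del S e₀) (S.b e₀) w := by
  induction h with
  | one => exact Or.inl (Rch.refl _)
  | grp _ _ ih => exact ih
  | fwd e _ ih =>
    by_cases he : e = e₀
    · subst he; exact Or.inr (Rch.refl _)
    · exact ih.imp (Rch.fwd (S := del S e₀) ⟨e, he⟩) (Rch.fwd (S := del S e₀) ⟨e, he⟩)
  | bwd e _ ih =>
    by_cases he : e = e₀
    · subst he; exact Or.inl (Rch.refl _)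
    · exact ih.imp (Rch.bwd (S := del S e₀) ⟨e, he⟩) (Rch.bwd (S := del S e₀) ⟨e, he⟩)

/-- chosen paths from `u` -/
structure Paths (S : GG Γ) (u : S.V) where
  p : S.V → PG S
  hp : ∀ w, Rch S u w → PPth S u w (p w)
  h1 : p u = 1

theorem paths (S : GG Γ) (u : S.V) : Nonempty (Paths S u) := by
  classical
  refine ⟨⟨fun w => if w = u then 1 else if h : Rch S u w then h.choose else 1, ?_, ?_⟩⟩
  · intro w hw
    by_cases h : w = u
    · subst h
      simp only [if_true]
      exact .one w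
    · simp only [if_neg h, dif_pos hw]
      exact hw.choose_spec
  · simp

section

variable {S : GG Γ} {Q : Type} [Group Q]

/-- the path lemma for a family which comes from a representation -/
theorem isOf_path {F : GG.Fam S Q} {r : Γ →* Q} {g : S.V → Q} (hF : F.IsOf r g) {u w : S.V}
    {h : PG S} (hp : PPth S u w h) : PG.toHom F h = (g u)⁻¹ * r (PG.nat S h) * g w := by
  induction hp with
  | one => rw [map_one, map_one, map_one]; group
  | grp x _ ih =>
    rw [map_mul, map_mul, map_mul, ih, PG.toHom_vx, PG.nat_vx, hF.vtx _ _ x.2]; group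
  | fwd e _ ih =>
    rw [map_mul, map_mul, map_mul, ih, PG.toHom_tl, PG.nat_tl, hF.edg]; group
  | bwd e _ ih =>
    rw [map_mul, map_mul, map_mul, map_inv, map_inv, map_inv, ih, PG.toHom_tl, PG.nat_tl, hF.edg]
    group

open Classical in
/-- values on the vertex groups -/
noncomputable def mkr {u : S.V} (P : Paths S u) (φ : cl S u →* Q) (w : S.V) (x : Γ) : Q :=
  if h : Rch S u w ∧ x ∈ S.G w then
    φ ⟨P.p w * PG.vx S w ⟨x, h.2⟩ * (P.p w)⁻¹,
      ((P.hp w h.1).grp _).trans (P.hp w h.1).symm⟩ else 1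

open Classical in
/-- values of the letters -/
noncomputable def mkt {u : S.V} (P : Paths S u) (φ : cl S u →* Q) (e : S.E) : Q :=
  if h : Rch S u (S.a e) then
    φ ⟨P.p (S.a e) * PG.tl S e * (P.p (S.b e))⁻¹,
      ((P.hp _ h).fwd e).trans (P.hp _ h.fwd).symm⟩ else 1

theorem mkr_pos {u : S.V} (P : Paths S u) (φ : cl S u →* Q) {w : S.V} {x : Γ} (h : Rch S u w)
    (hx : x ∈ S.G w) : mkr P φ w x = φ ⟨P.p w * PG.vx S w ⟨x, hx⟩ * (P.p w)⁻¹,
      ((P.hp w h).grp _).trans (P.hp w h).symm⟩ := dif_pos ⟨h, hx⟩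

theorem mkr_neg {u : S.V} (P : Paths S u) (φ : cl S u →* Q) {w : S.V} {x : Γ}
    (h : ¬ Rch S u w) : mkr P φ w x = 1 := dif_neg fun h' => h h'.1

theorem mkt_pos {u : S.V} (P : Paths S u) (φ : cl S u →* Q) {e : S.E} (h : Rch S u (S.a e)) :
    mkt P φ e = φ ⟨P.p (S.a e) * PG.tl S e * (P.p (S.b e))⁻¹,
      ((P.hp _ h).fwd e).trans (P.hp _ (Rch.fwd e h)).symm⟩ := dif_pos h

theorem mkt_neg {u : S.V} (P : Paths S u) (φ : cl S u →* Q) {e : S.E} (h : ¬ Rch S u (S.a e)) :
    mkt P φ e = 1 := dif_neg h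

/-- the family of a homomorphism of the group of closed paths at `u` -/
noncomputable def mkFam {u : S.V} (P : Paths S u) (φ : cl S u →* Q) : GG.Fam S Q where
  r := mkr P φ
  t := mkt P φ
  mul w x hx y hy := by
    by_cases h : Rch S u w
    · rw [mkr_pos P φ h (mul_mem hx hy), mkr_pos P φ h hx, mkr_pos P φ h hy, ← map_mul]
      congr 1
      apply Subtype.ext
      have e1 : PG.vx S w ⟨x * y, mul_mem hx hy⟩ = PG.vx S w ⟨x, hx⟩ * PG.vx S w ⟨y, hy⟩ := by
        rw [← map_mul]; rfl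
      simp only [Subgroup.coe_mul]
      rw [e1]; group
    · rw [mkr_neg P φ h, mkr_neg P φ h, mkr_neg P φ h, one_mul]
  cm e c hc := by
    by_cases h : Rch S u (S.a e)
    · have h' := Rch.fwd e h
      rw [mkr_pos P φ h (S.Ca e hc), mkr_pos P φ h' (S.Cb e c hc), mkt_pos P φ h, ← map_inv,
        ← map_mul, ← map_mul]
      congr 1
      apply Subtype.ext
      simp only [Subgroup.coe_mul, Subgroup.coe_inv]
      rw [PG.edge S e c hc]; group
    · have h' : ¬ Rch S u (S.b e) := fun h' => h (Rch.bwd e h')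
      rw [mkr_neg P φ h, mkr_neg P φ h', mkt_neg P φ h]; group

theorem mkFam_path {u : S.V} (P : Paths S u) (φ : cl S u →* Q) {w : S.V} {h : PG S}
    (hp : PPth S u w h) :
    PG.toHom (mkFam P φ) h = φ ⟨h * (P.p w)⁻¹, hp.trans (P.hp w ⟨h, hp⟩).symm⟩ := by
  induction hp with
  | one =>
    rw [map_one, ← map_one φ]
    congr 1
    apply Subtype.ext
    simp [P.h1]
  | @grp v g x hg ih =>
    have hr : Rch S u v := ⟨_, hg⟩
    have hx : (mkFam P φ).r v x.1 = _ := mkr_pos P φ hr x.2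
    rw [map_mul, ih, PG.toHom_vx, hx, ← map_mul]
    congr 1
    apply Subtype.ext
    simp only [Subgroup.coe_mul]
    group
  | @fwd g e hg ih =>
    have hr : Rch S u (S.a e) := ⟨_, hg⟩
    have hx : (mkFam P φ).t e = _ := mkt_pos P φ hr
    rw [map_mul, ih, PG.toHom_tl, hx, ← map_mul]
    congr 1
    apply Subtype.ext
    simp only [Subgroup.coe_mul]
    group
  | @bwd g e hg ih =>
    have hr : Rch S u (S.b e) := ⟨_, hg⟩
    have hx : (mkFam P φ).t e = _ := mkt_pos P φ (Rch.bwd e hr)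
    rw [map_mul, ih, map_inv, PG.toHom_tl, hx, ← map_inv, ← map_mul]
    congr 1
    apply Subtype.ext
    simp only [Subgroup.coe_mul, Subgroup.coe_inv]
    group

open Classical in
/-- combination of two families along a union of components -/
noncomputable def comb (u : S.V) (F F' : GG.Fam S Q) : GG.Fam S Q where
  r w := if Rch S u w then F.r w else F'.r w
  t e := if Rch S u (S.a e) then F.t e else F'.t e
  mul w x hx y hy := by
    by_cases h : Rch S u w
    · simp only [if_pos h]; exact F.mul w x hx y hy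
    · simp only [if_neg h]; exact F'.mul w x hx y hy
  cm e c hc := by
    by_cases h : Rch S u (S.a e)
    · have h' := Rch.fwd e h
      simp only [if_pos h, if_pos h']; exact F.cm e c hc
    · have h' : ¬ Rch S u (S.b e) := fun h' => h (Rch.bwd e h')
      simp only [if_neg h, if_neg h']; exact F'.cm e c hc

theorem comb_path {u : S.V} (F F' : GG.Fam S Q) {w : S.V} {h : PG S} (hp : PPth S u w h) :
    PG.toHom (comb u F F') h = PG.toHom F h := by
  induction hp with
  | one => rw [map_one, map_one]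
  | @grp v g x hg ih =>
    have hr : Rch S u v := ⟨_, hg⟩
    rw [map_mul, map_mul, ih, PG.toHom_vx, PG.toHom_vx]
    simp only [comb]
    rw [if_pos hr]
  | @fwd g e hg ih =>
    have hr : Rch S u (S.a e) := ⟨_, hg⟩
    rw [map_mul, map_mul, ih, PG.toHom_tl, PG.toHom_tl]
    simp only [comb]
    rw [if_pos hr]
  | @bwd g e hg ih =>
    have hr : Rch S u (S.b e) := ⟨_, hg⟩
    rw [map_mul, map_mul, map_inv, map_inv, ih, PG.toHom_tl, PG.toHom_tl]
    simp only [comb]
    rw [if_pos (Rch.bwd e hr)]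

theorem comb_path' {u u' : S.V} (hu : ¬ Rch S u u') (F F' : GG.Fam S Q) {w : S.V} {h : PG S}
    (hp : PPth S u' w h) : PG.toHom (comb u F F') h = PG.toHom F' h := by
  have key : ∀ {v : S.V} {g : PG S}, PPth S u' v g → ¬ Rch S u v := by
    intro v g hg h
    exact hu (h.trans (Rch.symm ⟨g, hg⟩))
  induction hp with
  | one => rw [map_one, map_one]
  | @grp v g x hg ih =>
    rw [map_mul, map_mul, ih, PG.toHom_vx, PG.toHom_vx]
    simp only [comb]
    rw [if_neg (key hg)]
  | @fwd g e hg ih =>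
    rw [map_mul, map_mul, ih, PG.toHom_tl, PG.toHom_tl]
    simp only [comb]
    rw [if_neg (key hg)]
  | @bwd g e hg ih =>
    rw [map_mul, map_mul, map_inv, map_inv, ih, PG.toHom_tl, PG.toHom_tl]
    simp only [comb]
    rw [if_neg (fun h => key hg (Rch.fwd e h))]

end

/-- gluing along `e₀` -/
def glue {S : GG Γ} {Q : Type} [Group Q] (e₀ : S.E) (F : GG.Fam (del S e₀) Q) (t₀ : Q)
    (h : ∀ c ∈ S.C e₀, F.r (S.a e₀) c = t₀ * F.r (S.b e₀) ((S.s e₀)⁻¹ * c * S.s e₀) * t₀⁻¹) :
    GG.Fam S Q where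
  r := F.r
  t e := if he : e = e₀ then t₀ else F.t ⟨e, he⟩
  mul w x hx y hy := F.mul w x hx y hy
  cm e c hc := by
    by_cases he : e = e₀
    · subst he
      rw [dif_pos rfl]
      exact h c hc
    · rw [dif_neg he]
      exact F.cm ⟨e, he⟩ c hc

theorem glue_isOf {S : GG Γ} {Q : Type} [Group Q] {e₀ : S.E} {F : GG.Fam (del S e₀) Q} {t₀ : Q}
    {h : ∀ c ∈ S.C e₀, F.r (S.a e₀) c = t₀ * F.r (S.b e₀) ((S.s e₀)⁻¹ * c * S.s e₀) * t₀⁻¹}
    {r : Γ →* Q} {g : S.V → Q} (hF : (glue e₀ F t₀ h).IsOf r g) :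
    F.IsOf r g ∧ t₀ = (g (S.a e₀))⁻¹ * r (S.s e₀) * g (S.b e₀) := by
  refine ⟨⟨fun w x hx => hF.vtx w x hx, fun e => ?_⟩, ?_⟩
  · have h1 := hF.edg e.1
    simp only [glue, dif_neg e.2] at h1
    exact h1
  · have h1 := hF.edg e₀
    have h2 : (glue e₀ F t₀ h).t e₀ = t₀ := dif_pos rfl
    rw [← h1, h2]

end Pool.Agent.FrC
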