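import Pool.Agent.Lib.MP_305fdd_al.Fr.C.Kern

/-!
# The HNN kernel lemma of block COUNT (helper16)
-/

namespace Pool.Agent.FrC

open Matrix

variable {F : Type*} [Field F] [CharP F 2] [Finite F]
variable {G A : Type*} [Group G] [Group A]

omit [CharP F 2] [Finite F] in
theorem conj_ne_one {g h : S2 F} (hg : g ≠ 1) : h * g * h⁻¹ ≠ 1 := by
  intro h1
  apply hg
  calc g = h⁻¹ * (h * g * h⁻¹) * h := by group
    _ = 1 := by rw [h1]; group

theorem hn_class [Finite (A →* S2 F)] (w₁ w₂ : A) {P : (A →* S2 F) → Prop} (hP : Good P) :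
    Nat.card {α : A →* S2 F // ((α w₁ ≠ 1 ∧ (α w₁).1.trace = 0) ∧ α w₂ ≠ 1 ∧
        (α w₂).1.trace = 0) ∧ P α} =
      Nat.card {g : S2 F // g ≠ 1 ∧ g.1.trace = 0} *
        Nat.card {α : A →* S2 F // (α w₁ = up 1 ∧ α w₂ ≠ 1 ∧ (α w₂).1.trace = 0) ∧ P α} := by
  have e : {α : A →* S2 F // ((α w₁ ≠ 1 ∧ (α w₁).1.trace = 0) ∧ α w₂ ≠ 1 ∧
        (α w₂).1.trace = 0) ∧ P α} ≃ Σ g : {g : S2 F // g ≠ 1 ∧ g.1.trace = 0},
          {α : A →* S2 F // (α w₁ = g.1 ∧ α w₂ ≠ 1 ∧ (α w₂).1.trace = 0) ∧ P α} :=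
    { toFun := fun α => ⟨⟨α.1 w₁, α.2.1.1⟩, ⟨α.1, ⟨rfl, α.2.1.2⟩, α.2.2⟩⟩
      invFun := fun x => ⟨x.2.1, ⟨by rw [x.2.2.1.1]; exact x.1.2, x.2.2.1.2⟩, x.2.2.2⟩
      left_inv := fun _ => rfl
      right_inv := by
        rintro ⟨⟨g, hg⟩, ⟨α, ⟨h1, h2⟩, h3⟩⟩
        simp only at h1
        subst h1
        rfl }
  have := Fintype.ofFinite {g : S2 F // g ≠ 1 ∧ g.1.trace = 0}
  rw [Nat.card_congr e, Nat.card_sigma]
  have hc : ∀ g : {g : S2 F // g ≠ 1 ∧ g.1.trace = 0},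
      Nat.card {α : A →* S2 F // (α w₁ = g.1 ∧ α w₂ ≠ 1 ∧ (α w₂).1.trace = 0) ∧ P α} =
        Nat.card {α : A →* S2 F // (α w₁ = up 1 ∧ α w₂ ≠ 1 ∧ (α w₂).1.trace = 0) ∧ P α} := by
    rintro ⟨g, hg1, hg0⟩
    obtain ⟨h, hh⟩ := conj_of_tr hg1 hg0
    refine Nat.card_congr
      { toFun := fun α => ⟨cj h α.1, ⟨by rw [cj_apply, α.2.1.1, hh],
          by rw [cj_apply]; exact conj_ne_one α.2.1.2.1,
          by rw [cj_apply, tr_conj]; exact α.2.1.2.2⟩, hP.inv _ α.2.2 _⟩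
        invFun := fun α => ⟨cj h⁻¹ α.1, ⟨by rw [cj_apply, α.2.1.1, ← hh]; group,
          by rw [cj_apply]; exact conj_ne_one α.2.1.2.1,
          by rw [cj_apply, tr_conj]; exact α.2.1.2.2⟩, hP.inv _ α.2.2 _⟩
        left_inv := fun α => Subtype.ext (by
          change cj h⁻¹ (cj h α.1) = α.1
          rw [← cj_mul, inv_mul_cancel, cj_one])
        right_inv := fun α => Subtype.ext (by
          change cj h (cj h⁻¹ α.1) = α.1
          rw [← cj_mul, mul_inv_cancel, cj_one]) }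
  rw [Finset.sum_congr rfl (fun g _ => hc g), Finset.sum_const, Finset.card_univ, smul_eq_mul,
    Nat.card_eq_fintype_card (α := {g : S2 F // g ≠ 1 ∧ g.1.trace = 0})]

/-- HNN EXTENSION -/
theorem hn_dvd [Finite (A →* S2 F)]
    (iA : A →* G) (t : G) (w₁ w₂ : A) (hw : t * iA w₂ * t⁻¹ = iA w₁)
    (hu : ∀ (α : A →* S2 F) (s : S2 F), s * α w₂ * s⁻¹ = α w₁ →
      ∃! ρ : G →* S2 F, ρ.comp iA = α ∧ ρ t = s)
    (hB : B2 A) {PA : (A →* S2 F) → Prop} (gA : Good PA) :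
    Nat.card F ^ 2 ∣ Nat.card {ρ : G →* S2 F // (ρ (iA w₁)).1.trace = 0 ∧ PA (ρ.comp iA)} := by
  classical
  have hst : ∀ ρ : G →* S2 F, ρ t * (ρ.comp iA) w₂ * (ρ t)⁻¹ = (ρ.comp iA) w₁ := by
    intro ρ
    rw [MonoidHom.comp_apply, MonoidHom.comp_apply, ← hw, map_mul, map_mul, map_inv]
  have e : {ρ : G →* S2 F // (ρ (iA w₁)).1.trace = 0 ∧ PA (ρ.comp iA)} ≃
      Σ α : {α : A →* S2 F // (α w₁).1.trace = 0 ∧ PA α}, {s : S2 F // s * α.1 w₂ * s⁻¹ = α.1 w₁} :=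
    Equiv.ofBijective (fun ρ => ⟨⟨ρ.1.comp iA, ρ.2⟩, ⟨ρ.1 t, hst ρ.1⟩⟩) (by
      constructor
      · rintro ⟨ρ, h1, h2⟩ ⟨ρ', h1', h2'⟩ he
        have key : ρ.comp iA = ρ'.comp iA ∧ ρ t = ρ' t := by
          have e1 := congrArg (fun x : (Σ α : {α : A →* S2 F // (α w₁).1.trace = 0 ∧ PA α},
            {s : S2 F // s * α.1 w₂ * s⁻¹ = α.1 w₁}) => (x.1.1, x.2.1)) he
          simpa only [Prod.mk.injEq] using e1
        have := (hu (ρ.comp iA) (ρ t) (hst ρ)).unique ⟨rfl, rfl⟩ ⟨key.1.symm, key.2.symm⟩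
        exact Subtype.ext this
      · rintro ⟨⟨α, h1, h2⟩, ⟨s, hs⟩⟩
        obtain ⟨ρ, ⟨e1, e2⟩, _⟩ := hu α s hs
        subst e1 e2
        exact ⟨⟨ρ, h1, h2⟩, rfl⟩)
  have := Fintype.ofFinite (A →* S2 F)
  have := Fintype.ofFinite {α : A →* S2 F // (α w₁).1.trace = 0 ∧ PA α}
  rw [Nat.card_congr e, Nat.card_sigma]
  have hf : ∀ α : {α : A →* S2 F // (α w₁).1.trace = 0 ∧ PA α},
      Nat.card {s : S2 F // s * α.1 w₂ * s⁻¹ = α.1 w₁} =
        Nat.card (S2 F) * (if α.1 w₁ = 1 ∧ α.1 w₂ = 1 then 1 else 0)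
          + Nat.card F * (if α.1 w₁ ≠ 1 ∧ α.1 w₂ ≠ 1 ∧ (α.1 w₂).1.trace = 0 then 1 else 0) := by
    rintro ⟨α, h1, h2⟩
    simp only
    by_cases a1 : α w₁ = 1
    · by_cases a2 : α w₂ = 1
      · rw [if_pos ⟨a1, a2⟩, if_neg (fun h => h.1 a1), mul_one, mul_zero, add_zero]
        refine Nat.card_congr (Equiv.subtypeUnivEquiv fun s => ?_)
        rw [a1, a2]; group
      · rw [if_neg (fun h => a2 h.2), if_neg (fun h => h.1 a1), mul_zero, mul_zero, add_zero,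
          Nat.card_eq_zero]
        left
        constructor
        rintro ⟨s, hs⟩
        exact conj_ne_one a2 (hs.trans a1)
    · by_cases a2 : α w₂ = 1
      · rw [if_neg (fun h => a1 h.1), if_neg (fun h => h.2.1 a2), mul_zero, mul_zero, add_zero,
          Nat.card_eq_zero]
        left
        constructor
        rintro ⟨s, hs⟩
        apply a1
        rw [← hs, a2]; group
      · by_cases a3 : (α w₂).1.trace = 0
        · rw [if_neg (fun h => a1 h.1), if_pos ⟨a1, a2, a3⟩, mul_zero, zero_add, mul_one]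
          exact card_transporter a2 a3 a1 h1
        · rw [if_neg (fun h => a1 h.1), if_neg (fun h => a3 h.2.2), mul_zero, mul_zero, add_zero,
            Nat.card_eq_zero]
          left
          constructor
          rintro ⟨s, hs⟩
          apply a3
          rw [← h1, ← hs, tr_conj]
  rw [Finset.sum_congr rfl (fun α _ => hf α), Finset.sum_add_distrib, ← Finset.mul_sum,
    ← Finset.mul_sum, Finset.sum_boole, Finset.sum_boole]
  have c1 : (Finset.univ.filter fun α : {α : A →* S2 F // (α w₁).1.trace = 0 ∧ PA α} =>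
      α.1 w₁ = 1 ∧ α.1 w₂ = 1).card
        = Nat.card {α : A →* S2 F // (α w₁ = 1 ∧ α w₂ = 1) ∧ PA α} := by
    rw [← Fintype.card_subtype, ← Nat.card_eq_fintype_card]
    exact Nat.card_congr
      { toFun := fun x => ⟨x.1.1, x.2, x.1.2.2⟩
        invFun := fun x => ⟨⟨x.1, by rw [x.2.1.1]; exact tr_one', x.2.2⟩, x.2.1⟩
        left_inv := fun _ => rfl
        right_inv := fun _ => rfl }
  have c2 : (Finset.univ.filter fun α : {α : A →* S2 F // (α w₁).1.trace = 0 ∧ PA α} =>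
      α.1 w₁ ≠ 1 ∧ α.1 w₂ ≠ 1 ∧ (α.1 w₂).1.trace = 0).card
        = Nat.card {α : A →* S2 F // ((α w₁ ≠ 1 ∧ (α w₁).1.trace = 0) ∧ α w₂ ≠ 1 ∧
          (α w₂).1.trace = 0) ∧ PA α} := by
    rw [← Fintype.card_subtype, ← Nat.card_eq_fintype_card]
    exact Nat.card_congr
      { toFun := fun x => ⟨x.1.1, ⟨⟨x.2.1, x.1.2.1⟩, x.2.2⟩, x.1.2.2⟩
        invFun := fun x => ⟨⟨x.1, x.2.1.1.2, x.2.2⟩, x.2.1.1.1, x.2.1.2⟩
        left_inv := fun _ => rfl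
        right_inv := fun _ => rfl }
  rw [c1, c2, hn_class w₁ w₂ gA, card_S2]
  obtain ⟨k, hk⟩ := hn_side (F := F) hB w₁ w₂ gA
  refine ⟨Nat.card {g : S2 F // g ≠ 1 ∧ g.1.trace = 0} * k, ?_⟩
  simp only [Nat.cast_id]
  calc _ = Nat.card {g : S2 F // g ≠ 1 ∧ g.1.trace = 0} * Nat.card F *
        (Nat.card {α : A →* S2 F // (α w₁ = 1 ∧ α w₂ = 1) ∧ PA α}
      + Nat.card {α : A →* S2 F // (α w₁ = up 1 ∧ α w₂ ≠ 1 ∧ (α w₂).1.trace = 0) ∧ PA α}) := by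
        ring
    _ = _ := by rw [hk]; ring

end Pool.Agent.FrC
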