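import Pool.Agent.Lib.MP_305fdd_al.Fr.C.Orb

/-!
# The three kernel lemmas of block COUNT (helper16): amalgams, HNN extensions, roots

One-edge splittings of `G` are used only through their universal property for homomorphisms to
`SL₂(F)`, the sides are abstract groups with homomorphisms to `G`.
-/

namespace Pool.Agent.FrC

open Matrix

/-- (B2): there are two different nontrivial characters to `ℤ/2` -/
def B2 (A : Type*) [Group A] : Prop :=
  ∃ χ₁ χ₂ : A →* Multiplicative (ZMod 2), χ₁ ≠ 1 ∧ χ₂ ≠ 1 ∧ χ₁ ≠ χ₂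

theorem z2_cases (x : Multiplicative (ZMod 2)) : x = 1 ∨ x = Multiplicative.ofAdd 1 := by
  revert x; decide

theorem z2_sq (x : Multiplicative (ZMod 2)) : x * x = 1 := by
  revert x; decide

theorem B2.exists_char {A : Type*} [Group A] (h : B2 A) (z : A) :
    ∃ χ₀ : A →* Multiplicative (ZMod 2), χ₀ ≠ 1 ∧ χ₀ z = 1 := by
  obtain ⟨χ₁, χ₂, h1, h2, h12⟩ := h
  rcases z2_cases (χ₁ z) with hz1 | hz1
  · exact ⟨χ₁, h1, hz1⟩
  rcases z2_cases (χ₂ z) with hz2 | hz2
  · exact ⟨χ₂, h2, hz2⟩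
  refine ⟨χ₁ * χ₂, ?_, ?_⟩
  · intro h
    apply h12
    ext1 a
    have h3 : χ₁ a * χ₂ a = 1 := congrArg (fun f : A →* Multiplicative (ZMod 2) => f a) h
    calc χ₁ a = χ₁ a * χ₂ a * χ₂ a := by rw [mul_assoc, z2_sq, mul_one]
      _ = χ₂ a := by rw [h3, one_mul]
  · rw [MonoidHom.mul_apply, hz1, hz2]; rfl

section

variable {F : Type*} [Field F] [CharP F 2] [Finite F]
variable {G A C : Type*} [Group G] [Group A] [Group C]

/-- AMALGAM -/
theorem am_dvd [Finite (A →* S2 F)] [Finite (C →* S2 F)]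
    (iA : A →* G) (iC : C →* G) (a : A) (c : C) (hac : iA a = iC c)
    (hu : ∀ (α : A →* S2 F) (γ : C →* S2 F), α a = γ c →
      ∃! ρ : G →* S2 F, ρ.comp iA = α ∧ ρ.comp iC = γ)
    (hA : ∃ χ₀ : A →* Multiplicative (ZMod 2), χ₀ ≠ 1 ∧ χ₀ a = 1)
    (hC : ∃ χ₀ : C →* Multiplicative (ZMod 2), χ₀ ≠ 1 ∧ χ₀ c = 1)
    {PA : (A →* S2 F) → Prop} {PC : (C →* S2 F) → Prop} (gA : Good PA) (gC : Good PC) :
    Nat.card F ^ 2 ∣ Nat.card {ρ : G →* S2 F //
      (ρ (iA a)).1.trace = 0 ∧ PA (ρ.comp iA) ∧ PC (ρ.comp iC)} := by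
  obtain ⟨χA, hA1, hA2⟩ := hA
  obtain ⟨χC, hC1, hC2⟩ := hC
  have e : {ρ : G →* S2 F // (ρ (iA a)).1.trace = 0 ∧ PA (ρ.comp iA) ∧ PC (ρ.comp iC)} ≃
      Σ g : {g : S2 F // g.1.trace = 0}, {α : A →* S2 F // α a = g.1 ∧ PA α} ×
        {γ : C →* S2 F // γ c = g.1 ∧ PC γ} :=
    Equiv.ofBijective (fun ρ => ⟨⟨ρ.1 (iA a), ρ.2.1⟩, ⟨ρ.1.comp iA, rfl, ρ.2.2.1⟩,
      ⟨ρ.1.comp iC, by rw [MonoidHom.comp_apply, ← hac], ρ.2.2.2⟩⟩) (by
      constructor
      · rintro ⟨ρ, h1, h2, h3⟩ ⟨ρ', h1', h2', h3'⟩ he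
        have key : ρ.comp iA = ρ'.comp iA ∧ ρ.comp iC = ρ'.comp iC := by
          have e1 := congrArg (fun x : (Σ g : {g : S2 F // g.1.trace = 0},
            {α : A →* S2 F // α a = g.1 ∧ PA α} × {γ : C →* S2 F // γ c = g.1 ∧ PC γ}) =>
              (x.2.1.1, x.2.2.1)) he
          simpa only [Prod.mk.injEq] using e1
        have := (hu (ρ.comp iA) (ρ.comp iC) (by
          rw [MonoidHom.comp_apply, MonoidHom.comp_apply, hac])).unique ⟨rfl, rfl⟩
            ⟨key.1.symm, key.2.symm⟩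
        exact Subtype.ext this
      · rintro ⟨⟨g, hg⟩, ⟨α, h1, h2⟩, ⟨γ, h3, h4⟩⟩
        obtain ⟨ρ, ⟨e1, e2⟩, _⟩ := hu α γ (by rw [h1, h3])
        subst e1 e2
        simp only at h1 h3
        subst h1
        exact ⟨⟨ρ, hg, h2, h4⟩, rfl⟩)
  have := Fintype.ofFinite {g : S2 F // g.1.trace = 0}
  rw [Nat.card_congr e, Nat.card_sigma]
  refine Finset.dvd_sum fun g _ => ?_
  rw [Nat.card_prod, sq]
  exact mul_dvd_mul (side_dvd' gA hA1 hA2 g.2) (side_dvd' gC hC1 hC2 g.2)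

/-- `q` divides the number of elements with a condition on the trace -/
theorem dvd_card_trD (D : F → Prop) : Nat.card F ∣ Nat.card {g : S2 F // D g.1.trace} := by
  classical
  have e : {g : S2 F // D g.1.trace} ≃ Σ t : {t : F // D t}, {g : S2 F // g.1.trace = t.1} :=
    { toFun := fun g => ⟨⟨g.1.1.trace, g.2⟩, ⟨g.1, rfl⟩⟩
      invFun := fun x => ⟨x.2.1, by rw [x.2.2]; exact x.1.2⟩
      left_inv := fun _ => rfl
      right_inv := by
        rintro ⟨⟨t, ht⟩, ⟨g, hg⟩⟩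
        simp only at hg
        subst hg
        rfl }
  have := Fintype.ofFinite {t : F // D t}
  rw [Nat.card_congr e, Nat.card_sigma]
  exact Finset.dvd_sum fun t _ => dvd_card_tr t.1

/-- ROOTS -/
theorem rt_dvd [Finite (A →* S2 F)]
    (iA : A →* G) (b : G) (m : ℕ) (a : A) (hab : iA a = b ^ m)
    (hu : ∀ (α : A →* S2 F) (g : S2 F), α a = g ^ m →
      ∃! ρ : G →* S2 F, ρ.comp iA = α ∧ ρ b = g)
    (hA : ∃ χ₀ : A →* Multiplicative (ZMod 2), χ₀ ≠ 1 ∧ χ₀ a = 1)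
    (D : F → Prop) (ht : ∀ g : S2 F, D g.1.trace → g ^ m = 1)
    {PA : (A →* S2 F) → Prop} (gA : Good PA) :
    Nat.card F ^ 2 ∣ Nat.card {ρ : G →* S2 F // D (ρ b).1.trace ∧ PA (ρ.comp iA)} := by
  obtain ⟨χA, hA1, hA2⟩ := hA
  have e : {ρ : G →* S2 F // D (ρ b).1.trace ∧ PA (ρ.comp iA)} ≃
      {g : S2 F // D g.1.trace} × {α : A →* S2 F // α a = 1 ∧ PA α} :=
    Equiv.ofBijective (fun ρ => (⟨ρ.1 b, ρ.2.1⟩, ⟨ρ.1.comp iA, by
      rw [MonoidHom.comp_apply, hab, map_pow]; exact ht _ ρ.2.1, ρ.2.2⟩)) (by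
      constructor
      · rintro ⟨ρ, h1, h2⟩ ⟨ρ', h1', h2'⟩ he
        simp only [Prod.mk.injEq, Subtype.mk.injEq] at he
        have := (hu (ρ.comp iA) (ρ b) (by
          rw [MonoidHom.comp_apply, hab, map_pow])).unique ⟨rfl, rfl⟩ ⟨he.2.symm, he.1.symm⟩
        exact Subtype.ext this
      · rintro ⟨⟨g, hg⟩, ⟨α, h1, h2⟩⟩
        obtain ⟨ρ, ⟨e1, e2⟩, _⟩ := hu α g (by rw [h1, ht _ hg])
        subst e1 e2
        exact ⟨⟨ρ, hg, h2⟩, rfl⟩)
  rw [Nat.card_congr e, Nat.card_prod, sq]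
  exact mul_dvd_mul (dvd_card_trD D) (side_dvd' gA hA1 hA2 tr_one')

omit [CharP F 2] [Finite F] in
/-- the unipotent representations with a condition -/
theorem uv_card (X : (A →* S2 F) → Prop) :
    Nat.card {α : A →* S2 F // X α ∧ UV α} =
      Nat.card {χ : A →* Multiplicative F // X ((upH F).comp χ)} := by
  symm
  refine Nat.card_congr (Equiv.ofBijective (fun χ =>
    (⟨(upH F).comp χ.1, χ.2, fun a => ⟨(χ.1 a).toAdd, rfl⟩⟩ : {α : A →* S2 F // X α ∧ UV α}))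
      ⟨?_, ?_⟩)
  · intro χ χ' h
    have h1 : (upH F).comp χ.1 = (upH F).comp χ'.1 := congrArg Subtype.val h
    apply Subtype.ext
    ext1 a
    exact upH_inj (congrArg (fun f : A →* S2 F => f a) h1)
  · rintro ⟨α, h1, h2⟩
    have h3 : (upH F).comp (uvE ⟨α, h2⟩) = α := by
      ext1 a
      have h4 := uvE_symm_apply (uvE ⟨α, h2⟩) a
      rw [Equiv.symm_apply_apply] at h4
      exact h4.symm
    exact ⟨⟨uvE ⟨α, h2⟩, by rw [h3]; exact h1⟩, Subtype.ext h3⟩

/-- the evaluation at two elements which are a basis of the mod 2 homology -/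
theorem ev_bij (hB : B2 A) {w₁ w₂ : A}
    (hn : ∀ χ₀ : A →* Multiplicative (ZMod 2), χ₀ w₁ = 1 → χ₀ w₂ = 1 → χ₀ = 1) :
    Function.Bijective (fun χ : A →* Multiplicative F => (χ w₁, χ w₂)) := by
  constructor
  · intro χ χ' h
    simp only [Prod.mk.injEq] at h
    by_contra hne
    have : ∃ a, χ a ≠ χ' a := by
      by_contra hc
      push Not at hc
      exact hne (by ext1 a; exact hc a)
    obtain ⟨a, ha⟩ := this
    let _ := ZMod.algebra F 2
    have h1 : (χ a).toAdd - (χ' a).toAdd ≠ 0 := by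
      intro h0
      exact ha (Multiplicative.toAdd.injective (sub_eq_zero.mp h0))
    rw [Ne, ← Module.forall_dual_apply_eq_zero_iff (ZMod 2)] at h1
    push Not at h1
    obtain ⟨φ, hφ⟩ := h1
    let χ₀ : A →* Multiplicative (ZMod 2) :=
      { toFun := fun x => Multiplicative.ofAdd (φ ((χ x).toAdd - (χ' x).toAdd))
        map_one' := by
          rw [χ.map_one, χ'.map_one, sub_self, map_zero]; rfl
        map_mul' := fun x y => by
          rw [χ.map_mul, χ'.map_mul, toAdd_mul, toAdd_mul, add_sub_add_comm, map_add]; rfl }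
    have h2 : χ₀ = 1 := hn χ₀
      (by change Multiplicative.ofAdd (φ ((χ w₁).toAdd - (χ' w₁).toAdd)) = 1
          rw [h.1, sub_self, map_zero]; rfl)
      (by change Multiplicative.ofAdd (φ ((χ w₂).toAdd - (χ' w₂).toAdd)) = 1
          rw [h.2, sub_self, map_zero]; rfl)
    apply hφ
    have h3 := congrArg (fun f : A →* Multiplicative (ZMod 2) => (f a).toAdd) h2
    exact h3
  · rintro ⟨x, y⟩
    obtain ⟨χ₁, χ₂, h1, h2, h12⟩ := hB
    have n1 : ¬ ((χ₁ w₁).toAdd = 0 ∧ (χ₁ w₂).toAdd = 0) := fun h => h1 (hn χ₁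
      (Multiplicative.toAdd.injective h.1) (Multiplicative.toAdd.injective h.2))
    have n2 : ¬ ((χ₂ w₁).toAdd = 0 ∧ (χ₂ w₂).toAdd = 0) := fun h => h2 (hn χ₂
      (Multiplicative.toAdd.injective h.1) (Multiplicative.toAdd.injective h.2))
    have n3 : ¬ ((χ₁ w₁).toAdd = (χ₂ w₁).toAdd ∧ (χ₁ w₂).toAdd = (χ₂ w₂).toAdd) := by
      rintro ⟨e1, e2⟩
      have e1' : χ₁ w₁ = χ₂ w₁ := Multiplicative.toAdd.injective e1
      have e2' : χ₁ w₂ = χ₂ w₂ := Multiplicative.toAdd.injective e2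
      have h3 : χ₁ * χ₂ = 1 := hn _ (by rw [MonoidHom.mul_apply, e1', z2_sq])
        (by rw [MonoidHom.mul_apply, e2', z2_sq])
      apply h12
      ext1 a
      have h4 : χ₁ a * χ₂ a = 1 := congrArg (fun f : A →* Multiplicative (ZMod 2) => f a) h3
      calc χ₁ a = χ₁ a * χ₂ a * χ₂ a := by rw [mul_assoc, z2_sq, mul_one]
        _ = χ₂ a := by rw [h4, one_mul]
    have hdet : (χ₁ w₁).toAdd * (χ₂ w₂).toAdd + (χ₁ w₂).toAdd * (χ₂ w₁).toAdd = 1 := by
      generalize (χ₁ w₁).toAdd = a at *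
      generalize (χ₁ w₂).toAdd = b at *
      generalize (χ₂ w₁).toAdd = c at *
      generalize (χ₂ w₂).toAdd = d at *
      revert a b c d
      decide
    have hdet' := congrArg (ZMod.castHom (dvd_refl 2) F) hdet
    rw [map_add, map_mul, map_mul, map_one] at hdet'
    set a := ZMod.castHom (dvd_refl 2) F (χ₁ w₁).toAdd with ha
    set b := ZMod.castHom (dvd_refl 2) F (χ₁ w₂).toAdd with hb
    set c := ZMod.castHom (dvd_refl 2) F (χ₂ w₁).toAdd with hc
    set d := ZMod.castHom (dvd_refl 2) F (χ₂ w₂).toAdd with hd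
    have t2 : (2 : F) = 0 := CharTwo.two_eq_zero
    refine ⟨tw χ₁ (x.toAdd * d + y.toAdd * c) * tw χ₂ (a * y.toAdd + b * x.toAdd), ?_⟩
    simp only [MonoidHom.mul_apply, tw_apply, Prod.mk.injEq, ← ha, ← hb, ← hc, ← hd]
    constructor
    · apply Multiplicative.toAdd.injective
      change a * (x.toAdd * d + y.toAdd * c) + c * (a * y.toAdd + b * x.toAdd) = x.toAdd
      linear_combination x.toAdd * hdet' + a * c * y.toAdd * t2
    · apply Multiplicative.toAdd.injective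
      change b * (x.toAdd * d + y.toAdd * c) + d * (a * y.toAdd + b * x.toAdd) = y.toAdd
      linear_combination y.toAdd * hdet' + b * d * x.toAdd * t2

omit [CharP F 2] in
theorem card_ne_zero' : Nat.card {y : Multiplicative F // y ≠ 1} + 1 = Nat.card F := by
  classical
  have := Fintype.ofFinite F
  have := Fintype.ofFinite (Multiplicative F)
  rw [← card_mult (F := F), Nat.card_eq_fintype_card, Nat.card_eq_fintype_card,
    Fintype.card_subtype, Finset.filter_ne' Finset.univ (1 : Multiplicative F), Finset.card_erase_add_one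
      (Finset.mem_univ _), Finset.card_univ]

/-- the character count of the HNN case -/
theorem hn_char [Finite (A →* Multiplicative F)] (hB : B2 A) (w₁ w₂ : A) :
    Nat.card F ∣ Nat.card {χ : A →* Multiplicative F // χ w₁ = 1 ∧ χ w₂ = 1}
      + Nat.card {χ : A →* Multiplicative F // χ w₁ = Multiplicative.ofAdd 1 ∧ χ w₂ ≠ 1} := by
  by_cases hn : ∀ χ₀ : A →* Multiplicative (ZMod 2), χ₀ w₁ = 1 → χ₀ w₂ = 1 → χ₀ = 1
  · have hb := ev_bij (F := F) hB hn
    let e := Equiv.ofBijective _ hb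
    have e1 : {χ : A →* Multiplicative F // χ w₁ = 1 ∧ χ w₂ = 1} ≃ Unit :=
      { toFun := fun _ => ()
        invFun := fun _ => ⟨e.symm (1, 1), by
          have := e.apply_symm_apply (1, 1)
          exact ⟨congrArg Prod.fst this, congrArg Prod.snd this⟩⟩
        left_inv := fun χ => Subtype.ext (by
          change e.symm (1, 1) = χ.1
          rw [Equiv.symm_apply_eq]
          exact (Prod.ext χ.2.1 χ.2.2).symm)
        right_inv := fun _ => rfl }
    have e2 : {χ : A →* Multiplicative F // χ w₁ = Multiplicative.ofAdd 1 ∧ χ w₂ ≠ 1} ≃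
        {y : Multiplicative F // y ≠ 1} :=
      { toFun := fun χ => ⟨χ.1 w₂, χ.2.2⟩
        invFun := fun y => ⟨e.symm (Multiplicative.ofAdd 1, y.1), by
          have := e.apply_symm_apply (Multiplicative.ofAdd 1, y.1)
          have h2 : (e.symm (Multiplicative.ofAdd 1, y.1)) w₂ = y.1 := congrArg Prod.snd this
          exact ⟨congrArg Prod.fst this, by rw [h2]; exact y.2⟩⟩
        left_inv := fun χ => Subtype.ext (by
          change e.symm (Multiplicative.ofAdd 1, χ.1 w₂) = χ.1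
          rw [Equiv.symm_apply_eq]
          change (Multiplicative.ofAdd 1, χ.1 w₂) = (χ.1 w₁, χ.1 w₂)
          rw [χ.2.1])
        right_inv := fun y => Subtype.ext (by
          have := e.apply_symm_apply (Multiplicative.ofAdd 1, y.1)
          exact congrArg Prod.snd this) }
    rw [Nat.card_congr e1, Nat.card_congr e2, Nat.card_unique (α := Unit), add_comm,
      card_ne_zero']
  · push Not at hn
    obtain ⟨χ₀, h1, h2, h0⟩ := hn
    refine Dvd.dvd.add (char_dvd χ₀ h0 _ ?_) (char_dvd χ₀ h0 _ ?_)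
    · intro χ hχ x
      rw [MonoidHom.mul_apply, MonoidHom.mul_apply, tw_of_one h1, tw_of_one h2, one_mul, one_mul]
      exact hχ
    · intro χ hχ x
      rw [MonoidHom.mul_apply, MonoidHom.mul_apply, tw_of_one h1, tw_of_one h2, one_mul, one_mul]
      exact hχ

/-- `q` divides `N₁₁ + N_uu` -/
theorem hn_side [Finite (A →* S2 F)] (hB : B2 A) (w₁ w₂ : A) {P : (A →* S2 F) → Prop}
    (hP : Good P) :
    Nat.card F ∣ Nat.card {α : A →* S2 F // (α w₁ = 1 ∧ α w₂ = 1) ∧ P α}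
      + Nat.card {α : A →* S2 F // (α w₁ = up 1 ∧ α w₂ ≠ 1 ∧ (α w₂).1.trace = 0) ∧ P α} := by
  have : Finite (A →* Multiplicative F) := fin_char
  obtain ⟨k, hk⟩ := orbit (fun α : A →* S2 F => (α w₁ = 1 ∧ α w₂ = 1) ∧ P α) (by
    rintro α ⟨⟨h1, h2⟩, h3⟩ y
    refine ⟨⟨?_, ?_⟩, hP.inv _ h3 _⟩
    · rw [cj_apply, h1]; group
    · rw [cj_apply, h2]; group)
  obtain ⟨l, hl⟩ := orbit (fun α : A →* S2 F =>
      (α w₁ = up 1 ∧ α w₂ ≠ 1 ∧ (α w₂).1.trace = 0) ∧ P α) (by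
    rintro α ⟨⟨h1, h2, h3⟩, h4⟩ y
    refine ⟨⟨?_, ?_, ?_⟩, hP.inv _ h4 _⟩
    · rw [cj_apply, h1, up_mul, up_inv, up_mul]
      congr 1; ring
    · intro h
      apply h2
      rw [cj_apply] at h
      calc α w₂ = (up y)⁻¹ * (up y * α w₂ * (up y)⁻¹) * up y := by group
        _ = 1 := by rw [h]; group
    · rw [cj_apply, tr_conj, h3])
  rw [hk, hl, uv_card (fun α : A →* S2 F => (α w₁ = 1 ∧ α w₂ = 1) ∧ P α),
    uv_card (fun α : A →* S2 F => (α w₁ = up 1 ∧ α w₂ ≠ 1 ∧ (α w₂).1.trace = 0) ∧ P α)]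
  have hmain : Nat.card F ∣ Nat.card {χ : A →* Multiplicative F //
        (((upH F).comp χ) w₁ = 1 ∧ ((upH F).comp χ) w₂ = 1) ∧ P ((upH F).comp χ)}
      + Nat.card {χ : A →* Multiplicative F // (((upH F).comp χ) w₁ = up 1 ∧
        ((upH F).comp χ) w₂ ≠ 1 ∧ (((upH F).comp χ) w₂).1.trace = 0) ∧ P ((upH F).comp χ)} := by
    by_cases hp : P ((upH F).comp (1 : A →* Multiplicative F))
    · have hall : ∀ χ : A →* Multiplicative F, P ((upH F).comp χ) := fun χ =>
        hP.uv _ _ (fun a => ⟨0, rfl⟩) (fun a => ⟨(χ a).toAdd, rfl⟩) hp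
      have hone : ∀ x : Multiplicative F, upH F x = 1 ↔ x = 1 := by
        intro x
        rw [← map_one (upH F)]
        exact upH_inj.eq_iff
      have c1 : ∀ χ : A →* Multiplicative F, ((((upH F).comp χ) w₁ = 1 ∧ ((upH F).comp χ) w₂ = 1)
          ∧ P ((upH F).comp χ)) ↔ (χ w₁ = 1 ∧ χ w₂ = 1) := by
        intro χ
        rw [MonoidHom.comp_apply, MonoidHom.comp_apply, hone, hone]
        exact ⟨fun h => h.1, fun h => ⟨h, hall χ⟩⟩
      have c2 : ∀ χ : A →* Multiplicative F, ((((upH F).comp χ) w₁ = up 1 ∧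
          ((upH F).comp χ) w₂ ≠ 1 ∧ (((upH F).comp χ) w₂).1.trace = 0) ∧ P ((upH F).comp χ)) ↔
            (χ w₁ = Multiplicative.ofAdd 1 ∧ χ w₂ ≠ 1) := by
        intro χ
        have e1 : upH F (χ w₁) = up 1 ↔ χ w₁ = Multiplicative.ofAdd 1 := by
          have : up (1 : F) = upH F (Multiplicative.ofAdd 1) := rfl
          rw [this]
          exact upH_inj.eq_iff
        rw [MonoidHom.comp_apply, MonoidHom.comp_apply, e1, Ne, hone]
        exact ⟨fun h => ⟨h.1.1, h.1.2.1⟩, fun h => ⟨⟨h.1, h.2, tr_up _⟩, hall χ⟩⟩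
      rw [Nat.card_congr (Equiv.subtypeEquivRight c1), Nat.card_congr (Equiv.subtypeEquivRight c2)]
      exact hn_char hB w₁ w₂
    · have hall : ∀ χ : A →* Multiplicative F, ¬ P ((upH F).comp χ) := fun χ h =>
        hp (hP.uv _ _ (fun a => ⟨(χ a).toAdd, rfl⟩) (fun a => ⟨0, rfl⟩) h)
      have z1 : Nat.card {χ : A →* Multiplicative F //
        (((upH F).comp χ) w₁ = 1 ∧ ((upH F).comp χ) w₂ = 1) ∧ P ((upH F).comp χ)} = 0 := by
        rw [Nat.card_eq_zero]
        exact Or.inl ⟨fun χ => hall χ.1 χ.2.2⟩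
      have z2 : Nat.card {χ : A →* Multiplicative F // (((upH F).comp χ) w₁ = up 1 ∧
        ((upH F).comp χ) w₂ ≠ 1 ∧ (((upH F).comp χ) w₂).1.trace = 0) ∧ P ((upH F).comp χ)} = 0 := by
        rw [Nat.card_eq_zero]
        exact Or.inl ⟨fun χ => hall χ.1 χ.2.2⟩
      rw [z1, z2]
      exact dvd_zero _
  obtain ⟨j, hj⟩ := hmain
  refine ⟨j + k + l, ?_⟩
  linarith [hj]

end

end Pool.Agent.FrC
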