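import Pool.Agent.Lib.MP_305fdd_al.Fr.C.HN

/-!
# Block COUNT: the final statement for one-edge splittings (helper16)

`Pool.Agent.FrC.count` : let `g i` (`i` in a finite set) be elements of the finitely generated group `G` and
`D i` conditions on elements of `F`, such that each `g i` comes with a one-edge splitting of `G` of one
of the types

* `AmSplit` : `G = A *_{a = c} C` (condition `T (g i) = 0`),
* `HnSplit` : `G = ⟨A, s ; s w₂ s⁻¹ = w₁⟩` (condition `T (g i) = 0`),
* `RtSplit` : `G = A *_{a = b^m} ⟨b⟩` (condition `D i (T b)` with: `D i (T h)` implies `h ^ m = 1`)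

such that the other `g j` are conjugate to elements of the images of the sides.  Then `q²` divides
the number of `ρ : G → SL₂(F)` with `D i (T (ρ (g i)))` for some `i`.
-/

namespace Pool.Agent.FrC

open Matrix

universe u

/-- finitely many homomorphisms from a finitely generated group to a finite group -/
theorem finite_hom (A : Type*) [Group A] [h : Group.FG A] (Q : Type*) [Group Q] [Finite Q] :
    Finite (A →* Q) := by
  obtain ⟨S, hS⟩ := h.out
  refine Finite.of_injective (fun f : A →* Q => fun s : S => f s.1) ?_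
  intro f f' he
  refine MonoidHom.eq_of_eqOn_dense hS ?_
  intro s hs
  exact congrFun he ⟨s, hs⟩

/-- a one-edge splitting as an amalgam over a cyclic group; `z` is conjugate to the generator -/
structure AmSplit (F : Type) [Field F] (G : Type u) [Group G] (z : G) where
  A : Type u
  C : Type u
  [gA : Group A]
  [gC : Group C]
  finA : Finite (A →* S2 F)
  finC : Finite (C →* S2 F)
  iA : A →* G
  iC : C →* G
  a : A
  c : C
  hac : iA a = iC c
  hz : IsConj (iA a) z
  univ : ∀ (α : A →* S2 F) (γ : C →* S2 F), α a = γ c →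
    ∃! ρ : G →* S2 F, ρ.comp iA = α ∧ ρ.comp iC = γ
  hA : ∃ χ₀ : A →* Multiplicative (ZMod 2), χ₀ ≠ 1 ∧ χ₀ a = 1
  hC : ∃ χ₀ : C →* Multiplicative (ZMod 2), χ₀ ≠ 1 ∧ χ₀ c = 1

/-- a one-edge splitting as an HNN extension over a cyclic group -/
structure HnSplit (F : Type) [Field F] (G : Type u) [Group G] (z : G) where
  A : Type u
  [gA : Group A]
  finA : Finite (A →* S2 F)
  iA : A →* G
  s : G
  w₁ : A
  w₂ : A
  hw : s * iA w₂ * s⁻¹ = iA w₁
  hz : IsConj (iA w₁) z
  univ : ∀ (α : A →* S2 F) (x : S2 F), x * α w₂ * x⁻¹ = α w₁ →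
    ∃! ρ : G →* S2 F, ρ.comp iA = α ∧ ρ s = x
  hB : B2 A

/-- a root splitting: `G` is obtained from `A` by adding an `m`-th root of `a` (conjugate to `z`) -/
structure RtSplit (F : Type) [Field F] (G : Type u) [Group G] (z : G) where
  A : Type u
  [gA : Group A]
  finA : Finite (A →* S2 F)
  iA : A →* G
  m : ℕ
  a : A
  b : G
  hab : iA a = b ^ m
  hz : IsConj b z
  univ : ∀ (α : A →* S2 F) (x : S2 F), α a = x ^ m →
    ∃! ρ : G →* S2 F, ρ.comp iA = α ∧ ρ b = x
  hA : ∃ χ₀ : A →* Multiplicative (ZMod 2), χ₀ ≠ 1 ∧ χ₀ a = 1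

attribute [instance] AmSplit.gA AmSplit.gC HnSplit.gA RtSplit.gA

/-- the data for the condition `D i (T (g i))` -/
inductive Safe {F : Type} [Field F] {G : Type u} [Group G] {ι : Type*} (g : ι → G)
    (D : ι → F → Prop) (i : ι) : Prop
  | am (σ : AmSplit F G (g i)) (h0 : ∀ t, D i t ↔ t = 0)
      (ho : ∀ j, j ≠ i → (∃ x, IsConj (σ.iA x) (g j)) ∨ (∃ x, IsConj (σ.iC x) (g j))) : Safe g D i
  | hn (σ : HnSplit F G (g i)) (h0 : ∀ t, D i t ↔ t = 0)
      (ho : ∀ j, j ≠ i → ∃ x, IsConj (σ.iA x) (g j)) : Safe g D i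
  | rt (σ : RtSplit F G (g i)) (h0 : ∀ h : S2 F, D i h.1.trace → h ^ σ.m = 1)
      (ho : ∀ j, j ≠ i → ∃ x, IsConj (σ.iA x) (g j)) : Safe g D i

section

variable {F : Type*} [Field F]

/-- elements with the eigenvalues `ζ, ζ⁻¹` -/
theorem pow_eq_one_of_tr {m : ℕ} {ζ : F} (h1 : ζ ^ m = 1) (h2 : ζ ≠ ζ⁻¹) (g : S2 F)
    (hg : g.1.trace = ζ + ζ⁻¹) : g ^ m = 1 := by
  have hm : m ≠ 0 ∨ m = 0 := by tauto
  rcases hm with hm | hm
  swap
  · rw [hm, pow_zero]
  have h0 : ζ ≠ 0 := by
    rintro rfl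
    rw [zero_pow hm] at h1
    exact zero_ne_one h1
  have hd : ((Polynomial.X - Polynomial.C ζ) * (Polynomial.X - Polynomial.C ζ⁻¹) : Polynomial F) ∣
      Polynomial.X ^ m - 1 := by
    refine IsCoprime.mul_dvd (Polynomial.isCoprime_X_sub_C_of_isUnit_sub
      (IsUnit.mk0 _ (sub_ne_zero.mpr h2))) ?_ ?_
    · rw [Polynomial.dvd_iff_isRoot]
      simp [h1]
    · rw [Polynomial.dvd_iff_isRoot]
      simp [h1]
  obtain ⟨Q, hQ⟩ := hd
  have hch : (g.1 * g.1 - (ζ + ζ⁻¹) • g.1 + 1 : Matrix (Fin 2) (Fin 2) F) = 0 := by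
    have hdet := det_eq g
    rw [← hg, Matrix.trace_fin_two]
    ext i j
    fin_cases i <;> fin_cases j <;>
      simp [Matrix.mul_apply, Fin.sum_univ_two, Matrix.smul_apply] <;>
        first
          | linear_combination (-1 : F) * hdet
          | ring
  have h3 : Polynomial.aeval g.1 ((Polynomial.X ^ m - 1 : Polynomial F)) = 0 := by
    rw [hQ, map_mul, map_mul, map_sub, map_sub, Polynomial.aeval_X, Polynomial.aeval_C,
      Polynomial.aeval_C]
    have : (g.1 - algebraMap F (Matrix (Fin 2) (Fin 2) F) ζ) *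
        (g.1 - algebraMap F (Matrix (Fin 2) (Fin 2) F) ζ⁻¹) = 0 := by
      rw [← hch]
      have e1 : algebraMap F (Matrix (Fin 2) (Fin 2) F) ζ *
          algebraMap F (Matrix (Fin 2) (Fin 2) F) ζ⁻¹ = 1 := by
        rw [← map_mul, mul_inv_cancel₀ h0, map_one]
      rw [sub_mul, mul_sub, mul_sub, e1, add_smul, ← Algebra.commutes ζ⁻¹ g.1,
        ← Algebra.smul_def, ← Algebra.smul_def]
      abel
    rw [this, zero_mul]
  rw [map_sub, map_pow, Polynomial.aeval_X, map_one, sub_eq_zero] at h3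
  apply Subtype.ext
  rw [Matrix.SpecialLinearGroup.coe_pow, h3]; rfl

variable [CharP F 2]

theorem pow_eq_one_of_tr_zero {m : ℕ} (hm : Even m) (g : S2 F) (hg : g.1.trace = 0) :
    g ^ m = 1 := by
  obtain ⟨k, hk⟩ := hm
  have h2 : (2 : F) = 0 := CharTwo.two_eq_zero
  have hd := det_eq g
  have h1 : g * g = 1 := by
    rw [tr_zero_iff] at hg
    rw [← up_zero]
    refine ext4 ?_ ?_ ?_ ?_
    · rw [mul00, up00]
      linear_combination hd + g.1 0 0 * hg + g.1 0 1 * g.1 1 0 * h2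
    · rw [mul01, up01]
      linear_combination g.1 0 1 * hg * (-1) + g.1 0 1 * g.1 0 0 * h2 + 0 * hd
    · rw [mul10, up10]
      linear_combination g.1 1 0 * hg * (-1) + g.1 1 0 * g.1 0 0 * h2
    · rw [mul11, up11]
      linear_combination hd - g.1 1 1 * hg + g.1 0 1 * g.1 1 0 * h2
  rw [hk, ← two_mul, pow_mul, sq, h1, one_pow]

theorem zeta_ne_inv {ζ : F} (h : ζ ≠ 1) (h0 : ζ ≠ 0) : ζ ≠ ζ⁻¹ := by
  intro h1
  apply h
  apply sq_inj
  rw [mul_one]
  calc ζ * ζ = ζ * ζ⁻¹ := by rw [← h1]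
    _ = 1 := mul_inv_cancel₀ h0

/-- an element `g` of trace `≠ 0` with `T (g ^ m) = 0` satisfies `g ^ m = 1` -/
theorem pow_eq_one_of_tr_pow [Finite F] {m : ℕ} (g : S2 F) (h0 : (g ^ m).1.trace = 0)
    (hg : g.1.trace ≠ 0) : g ^ m = 1 := by
  by_contra hne
  obtain ⟨h, hh⟩ := conj_of_tr hne h0
  have hc : (h * g * h⁻¹) * up 1 = up 1 * (h * g * h⁻¹) := by
    rw [← hh]
    calc (h * g * h⁻¹) * (h * g ^ m * h⁻¹) = h * (g * g ^ m) * h⁻¹ := by group
      _ = h * (g ^ m * g) * h⁻¹ := by rw [← pow_succ', ← pow_succ]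
      _ = _ := by group
  obtain ⟨y, hy⟩ := centr_up one_ne_zero hc
  apply hg
  rw [← tr_conj h g, hy, tr_up]

/-- trace conditions are good -/
theorem good_tr {A : Type*} [Group A] {J : Type*} (E : J → Prop) (x : J → A) (D : J → F → Prop) :
    Good (fun α : A →* S2 F => ∀ j, E j → D j (α (x j)).1.trace) where
  inv α h g j hj := by rw [cj_apply, tr_conj]; exact h j hj
  uv α β hα hβ h j hj := by
    have h1 := h j hj
    obtain ⟨y, hy⟩ := hα (x j)
    obtain ⟨y', hy'⟩ := hβ (x j)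
    rw [hy, tr_up] at h1
    rw [hy', tr_up]
    exact h1

omit [CharP F 2] in
theorem tr_of_isConj {G : Type*} [Group G] {x y : G} (h : IsConj x y) (ρ : G →* S2 F) :
    (ρ x).1.trace = (ρ y).1.trace := by
  obtain ⟨c, hc⟩ := isConj_iff.mp h
  rw [← hc, map_mul, map_mul, map_inv, tr_conj]

end

section

variable {F : Type} [Field F] [CharP F 2]

/-- inclusion and exclusion modulo `N` -/
theorem incl_excl {R ι : Type*} [Finite R] (N : ℕ) (E : ι → R → Prop)
    (h : ∀ T : Finset ι, T.Nonempty → N ∣ Nat.card {ρ // ∀ i ∈ T, E i ρ}) (s : Finset ι) :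
    ∀ T : Finset ι, N ∣ Nat.card {ρ // (∀ i ∈ T, E i ρ) ∧ ∃ i ∈ s, E i ρ} := by
  classical
  have := Fintype.ofFinite R
  induction s using Finset.induction_on with
  | empty =>
    intro T
    have : Nat.card {ρ : R // (∀ i ∈ T, E i ρ) ∧ ∃ i ∈ (∅ : Finset ι), E i ρ} = 0 := by
      rw [Nat.card_eq_zero]
      left
      constructor
      rintro ⟨ρ, _, i, hi, _⟩
      exact absurd hi (Finset.notMem_empty i)
    rw [this]; exact dvd_zero _
  | insert a s ha ih =>
    intro T
    have h1 := h (insert a T) ⟨a, Finset.mem_insert_self a T⟩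
    have h2 := ih T
    have h3 := ih (insert a T)
    rw [Nat.card_eq_fintype_card, Fintype.card_subtype] at h1 h2 h3 ⊢
    have e1 : (Finset.univ.filter fun ρ : R => (∀ i ∈ T, E i ρ) ∧ ∃ i ∈ insert a s, E i ρ) =
        (Finset.univ.filter fun ρ : R => ∀ i ∈ insert a T, E i ρ) ∪
          (Finset.univ.filter fun ρ : R => (∀ i ∈ T, E i ρ) ∧ ∃ i ∈ s, E i ρ) := by
      ext ρ
      simp only [Finset.mem_filter, Finset.mem_univ, true_and, Finset.mem_union,
        Finset.exists_mem_insert, Finset.forall_mem_insert]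
      tauto
    have e2 : (Finset.univ.filter fun ρ : R => (∀ i ∈ insert a T, E i ρ) ∧ ∃ i ∈ s, E i ρ) =
        (Finset.univ.filter fun ρ : R => ∀ i ∈ insert a T, E i ρ) ∩
          (Finset.univ.filter fun ρ : R => (∀ i ∈ T, E i ρ) ∧ ∃ i ∈ s, E i ρ) := by
      ext ρ
      simp only [Finset.mem_filter, Finset.mem_univ, true_and, Finset.mem_inter,
        Finset.forall_mem_insert]
      tauto
    rw [e1]
    rw [e2] at h3
    have h4 := Finset.card_union_add_card_inter
      (Finset.univ.filter fun ρ : R => ∀ i ∈ insert a T, E i ρ)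
      (Finset.univ.filter fun ρ : R => (∀ i ∈ T, E i ρ) ∧ ∃ i ∈ s, E i ρ)
    exact (Nat.dvd_add_left h3).mp (h4 ▸ Dvd.dvd.add h1 h2)

/-- COUNT for one intersection -/
theorem count_one [Finite F] {G : Type u} [Group G] {ι : Type*} (g : ι → G) (D : ι → F → Prop)
    (T : Finset ι) {i : ι} (hi : i ∈ T) (hs : Safe g D i) :
    Nat.card F ^ 2 ∣ Nat.card {ρ : G →* S2 F // ∀ j ∈ T, D j (ρ (g j)).1.trace} := by
  classical
  cases hs with
  | am σ h0 ho =>
    have := σ.finA
    have := σ.finC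
    let DA : ι → Prop := fun j => j ∈ T ∧ j ≠ i ∧ ∃ x, IsConj (σ.iA x) (g j)
    let DC : ι → Prop := fun j => j ∈ T ∧ j ≠ i ∧ ∃ x, IsConj (σ.iC x) (g j)
    let xA : ι → σ.A := fun j => if h : ∃ x, IsConj (σ.iA x) (g j) then h.choose else 1
    let xC : ι → σ.C := fun j => if h : ∃ x, IsConj (σ.iC x) (g j) then h.choose else 1
    have hxA : ∀ j, DA j → IsConj (σ.iA (xA j)) (g j) := by
      rintro j ⟨_, _, h⟩
      simp only [xA, dif_pos h]
      exact h.choose_spec
    have hxC : ∀ j, DC j → IsConj (σ.iC (xC j)) (g j) := by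
      rintro j ⟨_, _, h⟩
      simp only [xC, dif_pos h]
      exact h.choose_spec
    have key := am_dvd σ.iA σ.iC σ.a σ.c σ.hac σ.univ σ.hA σ.hC
      (good_tr DA xA D) (good_tr DC xC D)
    have e : ∀ ρ : G →* S2 F, (∀ j ∈ T, D j (ρ (g j)).1.trace) ↔
        ((ρ (σ.iA σ.a)).1.trace = 0 ∧ (∀ j, DA j → D j ((ρ.comp σ.iA) (xA j)).1.trace) ∧
          ∀ j, DC j → D j ((ρ.comp σ.iC) (xC j)).1.trace) := by
      intro ρ
      constructor
      · intro h
        refine ⟨by rw [tr_of_isConj σ.hz, ← h0]; exact h i hi, fun j hj => ?_, fun j hj => ?_⟩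
        · rw [MonoidHom.comp_apply, tr_of_isConj (hxA j hj)]; exact h j hj.1
        · rw [MonoidHom.comp_apply, tr_of_isConj (hxC j hj)]; exact h j hj.1
      · rintro ⟨h1, h2, h3⟩ j hj
        by_cases hji : j = i
        · subst hji
          rw [h0, ← tr_of_isConj σ.hz, h1]
        · rcases ho j hji with h4 | h4
          · have hd : DA j := ⟨hj, hji, h4⟩
            rw [← tr_of_isConj (hxA j hd)]
            exact h2 j hd
          · have hd : DC j := ⟨hj, hji, h4⟩
            rw [← tr_of_isConj (hxC j hd)]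
            exact h3 j hd
    rw [Nat.card_congr (Equiv.subtypeEquivRight e)]
    exact key
  | hn σ h0 ho =>
    have := σ.finA
    let DA : ι → Prop := fun j => j ∈ T ∧ j ≠ i ∧ ∃ x, IsConj (σ.iA x) (g j)
    let xA : ι → σ.A := fun j => if h : ∃ x, IsConj (σ.iA x) (g j) then h.choose else 1
    have hxA : ∀ j, DA j → IsConj (σ.iA (xA j)) (g j) := by
      rintro j ⟨_, _, h⟩
      simp only [xA, dif_pos h]
      exact h.choose_spec
    have key := hn_dvd σ.iA σ.s σ.w₁ σ.w₂ σ.hw σ.univ σ.hB (good_tr DA xA D)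
    have e : ∀ ρ : G →* S2 F, (∀ j ∈ T, D j (ρ (g j)).1.trace) ↔
        ((ρ (σ.iA σ.w₁)).1.trace = 0 ∧ (∀ j, DA j → D j ((ρ.comp σ.iA) (xA j)).1.trace)) := by
      intro ρ
      constructor
      · intro h
        refine ⟨by rw [tr_of_isConj σ.hz, ← h0]; exact h i hi, fun j hj => ?_⟩
        rw [MonoidHom.comp_apply, tr_of_isConj (hxA j hj)]; exact h j hj.1
      · rintro ⟨h1, h2⟩ j hj
        by_cases hji : j = i
        · subst hji
          rw [h0, ← tr_of_isConj σ.hz, h1]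
        · have hd : DA j := ⟨hj, hji, ho j hji⟩
          rw [← tr_of_isConj (hxA j hd)]
          exact h2 j hd
    rw [Nat.card_congr (Equiv.subtypeEquivRight e)]
    exact key
  | rt σ h0 ho =>
    have := σ.finA
    let DA : ι → Prop := fun j => j ∈ T ∧ j ≠ i ∧ ∃ x, IsConj (σ.iA x) (g j)
    let xA : ι → σ.A := fun j => if h : ∃ x, IsConj (σ.iA x) (g j) then h.choose else 1
    have hxA : ∀ j, DA j → IsConj (σ.iA (xA j)) (g j) := by
      rintro j ⟨_, _, h⟩
      simp only [xA, dif_pos h]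
      exact h.choose_spec
    have key := rt_dvd σ.iA σ.b σ.m σ.a σ.hab σ.univ σ.hA (D i) h0 (good_tr DA xA D)
    have e : ∀ ρ : G →* S2 F, (∀ j ∈ T, D j (ρ (g j)).1.trace) ↔
        (D i (ρ σ.b).1.trace ∧ (∀ j, DA j → D j ((ρ.comp σ.iA) (xA j)).1.trace)) := by
      intro ρ
      constructor
      · intro h
        refine ⟨by rw [tr_of_isConj σ.hz]; exact h i hi, fun j hj => ?_⟩
        rw [MonoidHom.comp_apply, tr_of_isConj (hxA j hj)]; exact h j hj.1
      · rintro ⟨h1, h2⟩ j hj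
        by_cases hji : j = i
        · subst hji
          rw [← tr_of_isConj σ.hz]; exact h1
        · have hd : DA j := ⟨hj, hji, ho j hji⟩
          rw [← tr_of_isConj (hxA j hd)]
          exact h2 j hd
    rw [Nat.card_congr (Equiv.subtypeEquivRight e)]
    exact key

/-- BLOCK COUNT -/
theorem count [Finite F] {G : Type u} [Group G] [Group.FG G] {ι : Type*} [Finite ι] (g : ι → G)
    (D : ι → F → Prop) (hs : ∀ i, Safe g D i) :
    Nat.card F ^ 2 ∣ Nat.card {ρ : G →* S2 F // ∃ i, D i (ρ (g i)).1.trace} := by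
  have := finite_hom G (S2 F)
  have := Fintype.ofFinite ι
  have h := incl_excl (R := G →* S2 F) (Nat.card F ^ 2) (fun i ρ => D i (ρ (g i)).1.trace)
    (fun T hT => by
      obtain ⟨i, hi⟩ := hT
      exact count_one g D T hi (hs i)) Finset.univ ∅
  have e : ∀ ρ : G →* S2 F, (∃ i, D i (ρ (g i)).1.trace) ↔
      ((∀ i ∈ (∅ : Finset ι), D i (ρ (g i)).1.trace) ∧
        ∃ i ∈ (Finset.univ : Finset ι), D i (ρ (g i)).1.trace) := by
    intro ρ
    simp
  rw [Nat.card_congr (Equiv.subtypeEquivRight e)]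
  exact h

end

end Pool.Agent.FrC
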