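import Pool.Agent.Lib.MP_305fdd_al.Fr.C.SL2

/-!
# The orbit principle for representations into `SL₂(F)`, `char F = 2` (block COUNT, helper16)

* `cj g α` : the conjugate representation;
* `UV α` : `α` has values in the unipotent group `{up x}`;
* `orbit` : for a finite set `X` of representations stable under conjugation by all `up x`:
  `|X| ≡ |{α ∈ X, UV α}|` modulo `q`;
* `uvE` : the `UV` representations are the homomorphisms `A →* Multiplicative F`;
* `char_dvd` : if `χ₀ : A → ℤ/2` is a nontrivial character then a set of characters `A →* Multiplicative F`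
  which is stable under multiplication by the multiples of `χ₀` has cardinality divisible by `q`;
* `side_dvd` : `q` divides `#{α : α z = up x, P α}`.
-/

namespace Pool.Agent.FrC

open Matrix

section

variable {F : Type*} [Field F] {A : Type*} [Group A]

/-- the conjugate representation -/
def cj (g : S2 F) (α : A →* S2 F) : A →* S2 F := (MulAut.conj g).toMonoidHom.comp α

theorem cj_apply (g : S2 F) (α : A →* S2 F) (a : A) : cj g α a = g * α a * g⁻¹ := rfl

theorem cj_one (α : A →* S2 F) : cj 1 α = α := by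
  ext1 a; rw [cj_apply]; group

theorem cj_mul (g h : S2 F) (α : A →* S2 F) : cj (g * h) α = cj g (cj h α) := by
  ext1 a; rw [cj_apply, cj_apply, cj_apply]; group

/-- `α` has values in the unipotent group -/
def UV (α : A →* S2 F) : Prop := ∀ a, ∃ y, α a = up y

theorem UV.cj {α : A →* S2 F} (h : UV α) (x : F) : cj (up x) α = α := by
  ext1 a
  obtain ⟨y, hy⟩ := h a
  rw [cj_apply, hy, up_mul, up_inv, up_mul]
  congr 1; ring

theorem UV.of_cj [CharP F 2] {α : A →* S2 F} {x : F} (hx : x ≠ 0) (h : FrC.cj (up x) α = α) :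
    UV α := by
  intro a
  have h1 : up x * α a * (up x)⁻¹ = α a := by
    have := congrArg (fun f : A →* S2 F => f a) h
    simpa only [cj_apply] using this
  refine centr_up hx ?_
  calc α a * up x = (up x * α a * (up x)⁻¹) * up x := by rw [h1]
    _ = _ := by group

omit [Field F] in
theorem card_mult : Nat.card (Multiplicative F) = Nat.card F := Nat.card_congr Multiplicative.toAdd

/-- the orbit principle -/
theorem orbit [CharP F 2] [Finite F] [Finite (A →* S2 F)] (X : (A →* S2 F) → Prop)
    (hst : ∀ α, X α → ∀ x : F, X (cj (up x) α)) :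
    ∃ k, Nat.card {α // X α} = Nat.card {α // X α ∧ UV α} + Nat.card F * k := by
  classical
  have hdv : Nat.card F ∣ Nat.card {α : A →* S2 F // X α ∧ ¬ UV α} := by
    rw [← card_mult]
    have hst' : ∀ α : A →* S2 F, (X α ∧ ¬ UV α) → ∀ x : F, X (cj (up x) α) ∧ ¬ UV (cj (up x) α) := by
      intro α h x
      refine ⟨hst α h.1 x, fun hu => h.2 ?_⟩
      have := hu.cj (-x)
      rw [← cj_mul, up_mul, neg_add_cancel, up_zero, cj_one] at this
      rw [this]; exact hu
    let _ : MulAction (Multiplicative F) {α : A →* S2 F // X α ∧ ¬ UV α} :=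
      { smul := fun x α => ⟨cj (upH F x) α.1, hst' α.1 α.2 x.toAdd⟩
        one_smul := fun α => Subtype.ext (by
          change cj (upH F 1) α.1 = α.1
          rw [map_one, cj_one])
        mul_smul := fun x y α => Subtype.ext (by
          change cj (upH F (x * y)) α.1 = cj (upH F x) (cj (upH F y) α.1)
          rw [map_mul, cj_mul]) }
    refine dvd_card_of_free _ _ ?_
    intro x α hx
    by_contra hx1
    have hx0 : x.toAdd ≠ 0 := fun h => hx1 (Multiplicative.toAdd.injective h)
    exact α.2.2 (UV.of_cj hx0 (congrArg Subtype.val hx))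
  obtain ⟨k, hk⟩ := hdv
  refine ⟨k, ?_⟩
  rw [← hk]
  have := Fintype.ofFinite (A →* S2 F)
  rw [Nat.card_eq_fintype_card, Nat.card_eq_fintype_card, Nat.card_eq_fintype_card,
    Fintype.card_subtype, Fintype.card_subtype, Fintype.card_subtype,
    ← Finset.card_union_of_disjoint]
  · congr 1
    ext α
    simp only [Finset.mem_filter, Finset.mem_univ, true_and, Finset.mem_union]
    tauto
  · rw [Finset.disjoint_filter]
    tauto

/-- the unipotent representations are the characters to `F` -/
noncomputable def uvE : {α : A →* S2 F // UV α} ≃ (A →* Multiplicative F) :=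
  (Equiv.ofBijective (fun χ : A →* Multiplicative F =>
    (⟨(upH F).comp χ, fun a => ⟨(χ a).toAdd, rfl⟩⟩ : {α : A →* S2 F // UV α})) (by
    constructor
    · intro χ χ' h
      have h' : (upH F).comp χ = (upH F).comp χ' := congrArg Subtype.val h
      ext1 a
      exact upH_inj (congrArg (fun f : A →* S2 F => f a) h')
    · rintro ⟨α, hα⟩
      choose y hy using fun a => hα a
      refine ⟨{ toFun := fun a => Multiplicative.ofAdd (y a)
                map_one' := ?_
                map_mul' := fun a b => ?_ }, Subtype.ext ?_⟩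
      · apply upH_inj
        change up (y 1) = _
        rw [← hy, map_one, map_one]
      · apply upH_inj
        change up (y (a * b)) = upH F _
        rw [map_mul]
        change _ = up (y a) * up (y b)
        rw [← hy, ← hy, ← hy, map_mul]
      · ext1 a
        exact (hy a).symm)).symm

theorem uvE_symm_apply (χ : A →* Multiplicative F) (a : A) :
    (uvE.symm χ).1 a = up (χ a).toAdd := rfl

/-- the multiple `x χ₀` of a character to `ℤ/2` -/
def tw [CharP F 2] (χ₀ : A →* Multiplicative (ZMod 2)) (x : F) : A →* Multiplicative F where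
  toFun a := Multiplicative.ofAdd ((ZMod.castHom (dvd_refl 2) F (χ₀ a).toAdd) * x)
  map_one' := by rw [map_one, toAdd_one, map_zero, zero_mul]; rfl
  map_mul' a b := by rw [χ₀.map_mul, toAdd_mul, map_add, add_mul]; rfl

theorem tw_apply [CharP F 2] (χ₀ : A →* Multiplicative (ZMod 2)) (x : F) (a : A) :
    tw χ₀ x a = Multiplicative.ofAdd ((ZMod.castHom (dvd_refl 2) F (χ₀ a).toAdd) * x) := rfl

theorem tw_add [CharP F 2] (χ₀ : A →* Multiplicative (ZMod 2)) (x y : F) :
    tw χ₀ (x + y) = tw χ₀ x * tw χ₀ y := by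
  ext1 a
  rw [MonoidHom.mul_apply, tw_apply, tw_apply, tw_apply, mul_add]; rfl

theorem tw_of_one [CharP F 2] {χ₀ : A →* Multiplicative (ZMod 2)} {a : A} (h : χ₀ a = 1) (x : F) :
    tw χ₀ x a = 1 := by
  rw [tw_apply, h, toAdd_one, map_zero, zero_mul]; rfl

theorem tw_free [CharP F 2] {χ₀ : A →* Multiplicative (ZMod 2)} (h0 : χ₀ ≠ 1) {x : F}
    (h : tw χ₀ x = 1) : x = 0 := by
  have : ∃ a, χ₀ a ≠ 1 := by
    by_contra hn
    push Not at hn
    exact h0 (by ext1 a; exact hn a)
  obtain ⟨a, ha⟩ := this
  have h1 : (χ₀ a).toAdd = 1 := by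
    have h2 : (χ₀ a).toAdd ≠ 0 := fun h => ha (Multiplicative.toAdd.injective h)
    generalize (χ₀ a).toAdd = z at h2
    revert h2; revert z; decide
  have h3 := congrArg (fun f : A →* Multiplicative F => (f a).toAdd) h
  simp only [tw_apply, toAdd_ofAdd, MonoidHom.one_apply, toAdd_one] at h3
  rwa [h1, map_one, one_mul] at h3

/-- sets of characters which are stable under a nontrivial character -/
theorem char_dvd [CharP F 2] [Finite F] (χ₀ : A →* Multiplicative (ZMod 2)) (h0 : χ₀ ≠ 1)
    [Finite (A →* Multiplicative F)] (Y : (A →* Multiplicative F) → Prop)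
    (hY : ∀ χ, Y χ → ∀ x : F, Y (tw χ₀ x * χ)) : Nat.card F ∣ Nat.card {χ // Y χ} := by
  rw [← card_mult]
  let _ : MulAction (Multiplicative F) {χ // Y χ} :=
    { smul := fun x χ => ⟨tw χ₀ x.toAdd * χ.1, hY χ.1 χ.2 _⟩
      one_smul := fun χ => Subtype.ext (by
        change tw χ₀ (Multiplicative.toAdd 1) * χ.1 = χ.1
        have : tw χ₀ (0 : F) = 1 := by
          ext1 a
          rw [tw_apply, mul_zero]; rfl
        rw [toAdd_one, this, one_mul])
      mul_smul := fun x y χ => Subtype.ext (by
        change tw χ₀ (x * y).toAdd * χ.1 = tw χ₀ x.toAdd * (tw χ₀ y.toAdd * χ.1)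
        rw [toAdd_mul, tw_add, mul_assoc]) }
  refine dvd_card_of_free _ _ ?_
  intro x χ hx
  have h1 : tw χ₀ x.toAdd * χ.1 = χ.1 := congrArg Subtype.val hx
  have h2 : tw χ₀ x.toAdd = 1 := by rwa [mul_eq_right] at h1
  exact Multiplicative.toAdd.injective (tw_free h0 h2)

theorem fin_char [Finite (A →* S2 F)] : Finite (A →* Multiplicative F) :=
  Finite.of_equiv _ uvE

/-- conditions on representations which are invariant under conjugation and constant on the
unipotent representations -/
structure Good (P : (A →* S2 F) → Prop) : Prop where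
  inv : ∀ α, P α → ∀ g : S2 F, P (cj g α)
  uv : ∀ α β, UV α → UV β → P α → P β

theorem Good.iff {P : (A →* S2 F) → Prop} (h : Good P) (α : A →* S2 F) (g : S2 F) :
    P (cj g α) ↔ P α := by
  constructor
  · intro hp
    have := h.inv _ hp g⁻¹
    rwa [← cj_mul, inv_mul_cancel, cj_one] at this
  · intro hp; exact h.inv _ hp g

/-- `q` divides the number of the representations with `α z = up x` and a good condition -/
theorem side_dvd [CharP F 2] [Finite F] [Finite (A →* S2 F)] {P : (A →* S2 F) → Prop} (hP : Good P)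
    {z : A} {χ₀ : A →* Multiplicative (ZMod 2)} (h0 : χ₀ ≠ 1) (hz : χ₀ z = 1) (x : F) :
    Nat.card F ∣ Nat.card {α : A →* S2 F // α z = up x ∧ P α} := by
  have : Finite (A →* Multiplicative F) := fin_char
  obtain ⟨k, hk⟩ := orbit (fun α : A →* S2 F => α z = up x ∧ P α) (by
    rintro α ⟨h1, h2⟩ y
    refine ⟨?_, hP.inv _ h2 _⟩
    rw [cj_apply, h1, up_mul, up_inv, up_mul]
    congr 1; ring)
  rw [hk]
  refine Dvd.dvd.add ?_ (dvd_mul_right _ _)
  by_cases hp : P ((upH F).comp (1 : A →* Multiplicative F))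
  · have hall : ∀ α : A →* S2 F, UV α → P α := by
      intro α hα
      exact hP.uv _ _ (fun a => ⟨0, rfl⟩) hα hp
    have e : {α : A →* S2 F // (α z = up x ∧ P α) ∧ UV α} ≃
        {χ : A →* Multiplicative F // χ z = Multiplicative.ofAdd x} :=
      { toFun := fun α => ⟨uvE ⟨α.1, α.2.2⟩, by
          have h1 := uvE_symm_apply (uvE ⟨α.1, α.2.2⟩) z
          rw [Equiv.symm_apply_apply] at h1
          have h2 : up x = up (uvE ⟨α.1, α.2.2⟩ z).toAdd := by
            rw [← h1]; exact α.2.1.1.symm
          exact Multiplicative.toAdd.injective (up_inj h2).symm⟩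
        invFun := fun χ => ⟨(uvE.symm χ.1).1, ⟨by
          rw [uvE_symm_apply, χ.2]; rfl, hall _ (uvE.symm χ.1).2⟩, (uvE.symm χ.1).2⟩
        left_inv := fun α => Subtype.ext (by
          change (uvE.symm (uvE ⟨α.1, α.2.2⟩)).1 = α.1
          rw [Equiv.symm_apply_apply])
        right_inv := fun χ => Subtype.ext (by
          change uvE ⟨(uvE.symm χ.1).1, (uvE.symm χ.1).2⟩ = χ.1
          have : (⟨(uvE.symm χ.1).1, (uvE.symm χ.1).2⟩ : {α : A →* S2 F // UV α}) = uvE.symm χ.1 :=
            rfl
          rw [this, Equiv.apply_symm_apply]) }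
    rw [Nat.card_congr e]
    refine char_dvd χ₀ h0 _ ?_
    intro χ hχ y
    rw [MonoidHom.mul_apply, tw_of_one hz, one_mul, hχ]
  · have : IsEmpty {α : A →* S2 F // (α z = up x ∧ P α) ∧ UV α} := by
      constructor
      rintro ⟨α, ⟨_, h1⟩, h2⟩
      exact hp (hP.uv _ _ h2 (fun a => ⟨0, rfl⟩) h1)
    have h0' : Nat.card {α : A →* S2 F // (α z = up x ∧ P α) ∧ UV α} = 0 := Nat.card_of_isEmpty
    rw [h0']
    exact dvd_zero _

/-- `q` divides the number of the representations with `α z = g`, `tr g = 0`, and a good condition -/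
theorem side_dvd' [CharP F 2] [Finite F] [Finite (A →* S2 F)] {P : (A →* S2 F) → Prop}
    (hP : Good P) {z : A} {χ₀ : A →* Multiplicative (ZMod 2)} (h0 : χ₀ ≠ 1) (hz : χ₀ z = 1)
    {g : S2 F} (hg : g.1.trace = 0) :
    Nat.card F ∣ Nat.card {α : A →* S2 F // α z = g ∧ P α} := by
  have key : ∃ h : S2 F, ∃ x, h * g * h⁻¹ = up x := by
    by_cases h1 : g = 1
    · exact ⟨1, 0, by rw [h1, up_zero]; group⟩
    · obtain ⟨h, hh⟩ := conj_of_tr h1 hg
      exact ⟨h, 1, hh⟩
  obtain ⟨h, x, hx⟩ := key
  have e : {α : A →* S2 F // α z = g ∧ P α} ≃ {α : A →* S2 F // α z = up x ∧ P α} :=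
    { toFun := fun α => ⟨cj h α.1, by rw [cj_apply, α.2.1, hx], hP.inv _ α.2.2 _⟩
      invFun := fun α => ⟨cj h⁻¹ α.1, by rw [cj_apply, α.2.1, ← hx]; group, hP.inv _ α.2.2 _⟩
      left_inv := fun α => Subtype.ext (by
        change cj h⁻¹ (cj h α.1) = α.1
        rw [← cj_mul, inv_mul_cancel, cj_one])
      right_inv := fun α => Subtype.ext (by
        change cj h (cj h⁻¹ α.1) = α.1
        rw [← cj_mul, mul_inv_cancel, cj_one]) }
  rw [Nat.card_congr e]
  exact side_dvd hP h0 hz x

end

end Pool.Agent.FrC
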