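import Pool.Agent.Lib.MP_305fdd_al.Fr.S.Defs

/-!
# The abstract group of a graph of subgroups (block COUNT, helper16)

`PG S` : the group generated by all vertex groups `vx w x` (`x ∈ S.G w`) and all letters `tl e`, with
the relations of the vertex groups and `vx (a e) c = tl e * vx (b e) (s⁻¹ c s) * (tl e)⁻¹`.
Homomorphisms `PG S →* Q` are the families `Fam S Q` (`PG.toHom`).

`PP S u v g` : `g : PG S` is a path product from `u` to `v`;  `cl S v` : the subgroup of the closed
paths at `v` (the fundamental group).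
-/

set_option autoImplicit false

namespace Pool.Agent.FrC

open Pool.Agent.FrS

variable {Γ : Type} [Group Γ]

/-- generators -/
abbrev Gen (S : GG Γ) : Type := (Σ w : S.V, S.G w) ⊕ S.E

/-- relations -/
inductive Rel (S : GG Γ) : FreeGroup (Gen S) → Prop
  | mul (w : S.V) (x y : S.G w) : Rel S (FreeGroup.of (Sum.inl ⟨w, x⟩) *
      FreeGroup.of (Sum.inl ⟨w, y⟩) * (FreeGroup.of (Sum.inl ⟨w, x * y⟩))⁻¹)
  | edge (e : S.E) (c : Γ) (h : c ∈ S.C e) : Rel S (FreeGroup.of (Sum.inl ⟨S.a e, ⟨c, S.Ca e h⟩⟩) *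
      (FreeGroup.of (Sum.inr e) *
        FreeGroup.of (Sum.inl ⟨S.b e, ⟨(S.s e)⁻¹ * c * S.s e, S.Cb e c h⟩⟩) *
          (FreeGroup.of (Sum.inr e))⁻¹)⁻¹)

/-- the abstract group of `S` -/
abbrev PG (S : GG Γ) : Type := PresentedGroup {r | Rel S r}

namespace PG

variable (S : GG Γ)

/-- elements of the vertex groups -/
def vx (w : S.V) : S.G w →* PG S where
  toFun x := PresentedGroup.of (Sum.inl ⟨w, x⟩)
  map_one' := by
    have h := PresentedGroup.one_of_mem (rels := {r | Rel S r}) (Rel.mul w 1 1)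
    rw [map_mul, map_mul, map_inv, mul_one, mul_inv_cancel_right] at h
    exact h
  map_mul' x y := by
    have h := PresentedGroup.one_of_mem (rels := {r | Rel S r}) (Rel.mul w x y)
    rw [map_mul, map_mul, map_inv, mul_inv_eq_one] at h
    exact h.symm

/-- the letters -/
def tl (e : S.E) : PG S := PresentedGroup.of (Sum.inr e)

theorem edge (e : S.E) (c : Γ) (h : c ∈ S.C e) :
    vx S (S.a e) ⟨c, S.Ca e h⟩ =
      tl S e * vx S (S.b e) ⟨(S.s e)⁻¹ * c * S.s e, S.Cb e c h⟩ * (tl S e)⁻¹ := by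
  have h := PresentedGroup.one_of_mem (rels := {r | Rel S r}) (Rel.edge e c h)
  rw [map_mul, map_inv, map_mul, map_mul, map_inv, mul_inv_eq_one] at h
  exact h

variable {S}

/-- the homomorphism of a family -/
def toHom {Q : Type} [Group Q] (F : GG.Fam S Q) : PG S →* Q :=
  PresentedGroup.toGroup (f := fun g : Gen S => g.elim (fun x => F.r x.1 x.2.1) F.t) (by
    intro r hr
    cases hr with
    | mul w x y =>
      simp only [map_mul, map_inv, FreeGroup.lift_apply_of, Sum.elim_inl]
      rw [mul_inv_eq_one]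
      exact (F.mul w x.1 x.2 y.1 y.2).symm
    | edge e c h =>
      simp only [map_mul, map_inv, FreeGroup.lift_apply_of, Sum.elim_inl, Sum.elim_inr]
      rw [mul_inv_eq_one]
      exact F.cm e c h)

theorem toHom_vx {Q : Type} [Group Q] (F : GG.Fam S Q) (w : S.V) (x : S.G w) :
    toHom F (vx S w x) = F.r w x.1 := PresentedGroup.toGroup.of _

theorem toHom_tl {Q : Type} [Group Q] (F : GG.Fam S Q) (e : S.E) :
    toHom F (tl S e) = F.t e := PresentedGroup.toGroup.of _

/-- the map to `Γ` -/
def nat (S : GG Γ) : PG S →* Γ := toHom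
  { r := fun _ x => x
    t := S.s
    mul := fun _ _ _ _ _ => rfl
    cm := fun e c _ => by group }

theorem nat_vx (w : S.V) (x : S.G w) : nat S (vx S w x) = x.1 := toHom_vx _ w x

theorem nat_tl (e : S.E) : nat S (tl S e) = S.s e := toHom_tl _ e

end PG

/-- path products in the abstract group -/
inductive PPth (S : GG Γ) : S.V → S.V → PG S → Prop
  | one (v : S.V) : PPth S v v 1
  | grp {u v : S.V} {g : PG S} (x : S.G v) : PPth S u v g → PPth S u v (g * PG.vx S v x)
  | fwd {u : S.V} {g : PG S} (e : S.E) : PPth S u (S.a e) g → PPth S u (S.b e) (g * PG.tl S e)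
  | bwd {u : S.V} {g : PG S} (e : S.E) : PPth S u (S.b e) g → PPth S u (S.a e) (g * (PG.tl S e)⁻¹)

namespace PPth

variable {S : GG Γ}

theorem trans {u v w : S.V} {g h : PG S} (h1 : PPth S u v g) (h2 : PPth S v w h) :
    PPth S u w (g * h) := by
  induction h2 with
  | one => rw [mul_one]; exact h1
  | grp x _ ih => rw [← mul_assoc]; exact ih.grp x
  | fwd e _ ih => rw [← mul_assoc]; exact ih.fwd e
  | bwd e _ ih => rw [← mul_assoc]; exact ih.bwd e

theorem symm {u v : S.V} {g : PG S} (h : PPth S u v g) : PPth S v u g⁻¹ := by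
  induction h with
  | one => rw [inv_one]; exact .one _
  | grp x _ ih =>
    rw [mul_inv_rev, ← map_inv]
    have h1 := (PPth.one (S := S) _).grp x⁻¹
    rw [one_mul] at h1
    exact h1.trans ih
  | fwd e _ ih =>
    rw [mul_inv_rev]
    have h1 := (PPth.one (S := S) (S.b e)).bwd e
    rw [one_mul] at h1
    exact h1.trans ih
  | bwd e _ ih =>
    rw [mul_inv_rev, inv_inv]
    have h1 := (PPth.one (S := S) (S.a e)).fwd e
    rw [one_mul] at h1
    exact h1.trans ih

theorem vx (v : S.V) (x : S.G v) : PPth S v v (PG.vx S v x) := by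
  have h := (PPth.one (S := S) v).grp x
  rwa [one_mul] at h

theorem tl (e : S.E) : PPth S (S.a e) (S.b e) (PG.tl S e) := by
  have h := (PPth.one (S := S) (S.a e)).fwd e
  rwa [one_mul] at h

end PPth

/-- the closed paths at `v` -/
def cl (S : GG Γ) (v : S.V) : Subgroup (PG S) where
  carrier := {g | PPth S v v g}
  mul_mem' h1 h2 := PPth.trans h1 h2
  one_mem' := PPth.one v
  inv_mem' h := PPth.symm h

theorem mem_cl {S : GG Γ} {v : S.V} {g : PG S} : g ∈ cl S v ↔ PPth S v v g := Iff.rfl

end Pool.Agent.FrC
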