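import Mathlib

/-!
# Counting in `SL₂(F)`, `F` a finite field of characteristic two (owner helper16)

`Pool.Agent.FrC.up x = [[1,x],[0,1]]`.  Facts used by the block COUNT:

* `centr_up` : what commutes with some `up x`, `x ≠ 0`, is some `up y`;
* `conj_of_tr` : an element `≠ 1` of trace `0` is conjugate to `up 1`;
* `card_tr_zero` : there are `q²` elements of trace `0`;
* `card_tr_ne` : there are `q (q + 1)` elements of trace `ζ + ζ⁻¹`, `ζ ≠ 1`;
* `dvd_card_of_free` : a finite set with a free action has cardinality divisible by the order of the group.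
-/

namespace Pool.Agent.FrC

open Matrix

abbrev S2 (F : Type*) [CommRing F] := Matrix.SpecialLinearGroup (Fin 2) F

/-- a finite set with a free action of a finite group: its cardinality is divisible by the order of the group -/
theorem dvd_card_of_free (H X : Type*) [Group H] [Finite H] [MulAction H X] [Finite X]
    (hf : ∀ (h : H) (x : X), h • x = x → h = 1) : Nat.card H ∣ Nat.card X := by
  classical
  have e := MulAction.selfEquivSigmaOrbitsQuotientStabilizer H X
  have : Finite (Quotient (MulAction.orbitRel H X)) := Quotient.finite _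
  have := Fintype.ofFinite (Quotient (MulAction.orbitRel H X))
  have := Fintype.ofFinite X
  rw [Nat.card_congr e, Nat.card_sigma]
  refine Finset.dvd_sum fun ω _ => ?_
  have hs : MulAction.stabilizer H (Quotient.out ω) = ⊥ := by
    rw [eq_bot_iff]
    intro h hh
    rw [MulAction.mem_stabilizer_iff] at hh
    rw [Subgroup.mem_bot]
    exact hf h _ hh
  have : Nat.card (H ⧸ MulAction.stabilizer H (Quotient.out ω)) = Nat.card H := by
    rw [hs]
    exact Nat.card_congr (QuotientGroup.quotientBot (G := H)).toEquiv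
  exact Dvd.intro_left 1 (by rw [one_mul, this])

section

variable {F : Type*} [Field F]

/-- the unipotent matrix `[[1,x],[0,1]]` -/
def up (x : F) : S2 F := ⟨!![1, x; 0, 1], by simp [Matrix.det_fin_two_of]⟩

theorem up_val (x : F) : (up x).1 = !![1, x; 0, 1] := rfl

theorem up_mul (x y : F) : up x * up y = up (x + y) := by
  apply Subtype.ext
  rw [Matrix.SpecialLinearGroup.coe_mul, up_val, up_val, up_val]
  ext i j
  fin_cases i <;> fin_cases j <;> simp [Matrix.mul_apply, Fin.sum_univ_two, add_comm]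

theorem up_zero : up (0 : F) = 1 := by
  apply Subtype.ext
  ext i j
  fin_cases i <;> fin_cases j <;> simp [up_val]

theorem up_inj {x y : F} (h : up x = up y) : x = y := by
  have := congrArg (fun g : S2 F => g.1 0 1) h
  simpa [up_val] using this

theorem up_ne_one {x : F} (h : x ≠ 0) : up x ≠ 1 := by
  intro h1
  rw [← up_zero] at h1
  exact h (up_inj h1)

/-- the subgroup of the `up x` as a homomorphism -/
def upH (F : Type*) [Field F] : Multiplicative F →* S2 F where
  toFun x := up x.toAdd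
  map_one' := up_zero
  map_mul' _ _ := (up_mul _ _).symm

theorem upH_inj : Function.Injective (upH F) := by
  intro x y h
  exact Multiplicative.toAdd.injective (up_inj h)

theorem up_inv (x : F) : (up x)⁻¹ = up (-x) := by
  rw [inv_eq_iff_mul_eq_one, up_mul, add_neg_cancel, up_zero]

variable [CharP F 2]

theorem centr_up {x : F} (hx : x ≠ 0) {g : S2 F} (h : g * up x = up x * g) : ∃ y, g = up y := by
  have h1 := congrArg (fun g : S2 F => g.1 0 0) h
  have h2 := congrArg (fun g : S2 F => g.1 0 1) h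
  simp only [Matrix.SpecialLinearGroup.coe_mul, up_val, Matrix.mul_apply, Fin.sum_univ_two] at h1 h2
  simp at h1 h2
  have hc : g.1 1 0 = 0 := by
    rcases h1 with h1 | h1
    · exact absurd h1 hx
    · exact h1
  have had : g.1 0 0 = g.1 1 1 := by
    have : x * (g.1 0 0 - g.1 1 1) = 0 := by linear_combination h2
    rcases mul_eq_zero.mp this with h3 | h3
    · exact absurd h3 hx
    · exact sub_eq_zero.mp h3
  have hd : g.1 0 0 * g.1 1 1 = 1 := by
    have := g.2
    rw [Matrix.det_fin_two] at this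
    rw [hc] at this
    simpa using this
  have h1' : g.1 0 0 = 1 := by
    have h0 : (g.1 0 0 - 1) ^ 2 = 0 := by
      have h2' : (2 : F) = 0 := CharTwo.two_eq_zero
      rw [← had] at hd
      linear_combination hd + (1 - g.1 0 0) * h2'
    have := pow_eq_zero_iff (two_ne_zero) |>.mp h0
    exact sub_eq_zero.mp this
  refine ⟨g.1 0 1, Subtype.ext ?_⟩
  rw [up_val]
  ext i j
  fin_cases i <;> fin_cases j <;> simp [hc, h1', ← had]

omit [CharP F 2] in
theorem det_eq (g : S2 F) : g.1 0 0 * g.1 1 1 - g.1 0 1 * g.1 1 0 = 1 := by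
  have := g.2
  rwa [Matrix.det_fin_two] at this

/-- a matrix of determinant `1` from its entries -/
def mk4 (a b c d : F) (h : a * d - b * c = 1) : S2 F := ⟨!![a, b; c, d], by
  rw [Matrix.det_fin_two_of]; exact h⟩

omit [CharP F 2] in
theorem ext4 {g h : S2 F} (h1 : g.1 0 0 = h.1 0 0) (h2 : g.1 0 1 = h.1 0 1)
    (h3 : g.1 1 0 = h.1 1 0) (h4 : g.1 1 1 = h.1 1 1) : g = h := by
  apply Subtype.ext
  ext i j
  fin_cases i <;> fin_cases j <;> assumption

omit [CharP F 2] in
theorem mul00 (g h : S2 F) : (g * h).1 0 0 = g.1 0 0 * h.1 0 0 + g.1 0 1 * h.1 1 0 := by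
  rw [Matrix.SpecialLinearGroup.coe_mul, Matrix.mul_apply, Fin.sum_univ_two]
omit [CharP F 2] in
theorem mul01 (g h : S2 F) : (g * h).1 0 1 = g.1 0 0 * h.1 0 1 + g.1 0 1 * h.1 1 1 := by
  rw [Matrix.SpecialLinearGroup.coe_mul, Matrix.mul_apply, Fin.sum_univ_two]
omit [CharP F 2] in
theorem mul10 (g h : S2 F) : (g * h).1 1 0 = g.1 1 0 * h.1 0 0 + g.1 1 1 * h.1 1 0 := by
  rw [Matrix.SpecialLinearGroup.coe_mul, Matrix.mul_apply, Fin.sum_univ_two]
omit [CharP F 2] in
theorem mul11 (g h : S2 F) : (g * h).1 1 1 = g.1 1 0 * h.1 0 1 + g.1 1 1 * h.1 1 1 := by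
  rw [Matrix.SpecialLinearGroup.coe_mul, Matrix.mul_apply, Fin.sum_univ_two]

section
omit [CharP F 2]
variable (a b c d : F) (h : a * d - b * c = 1)
@[simp] theorem mk00 : (mk4 a b c d h).1 0 0 = a := rfl
@[simp] theorem mk01 : (mk4 a b c d h).1 0 1 = b := rfl
@[simp] theorem mk10 : (mk4 a b c d h).1 1 0 = c := rfl
@[simp] theorem mk11 : (mk4 a b c d h).1 1 1 = d := rfl
@[simp] theorem up00 : (up a).1 0 0 = 1 := rfl
@[simp] theorem up01 : (up a).1 0 1 = a := rfl
@[simp] theorem up10 : (up a).1 1 0 = 0 := rfl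
@[simp] theorem up11 : (up a).1 1 1 = 1 := rfl
end

theorem tr_zero_iff (g : S2 F) : g.1.trace = 0 ↔ g.1 0 0 = g.1 1 1 := by
  rw [Matrix.trace_fin_two]
  have h2 : (2 : F) = 0 := CharTwo.two_eq_zero
  constructor
  · intro h; linear_combination h - g.1 1 1 * h2
  · intro h; linear_combination h + g.1 1 1 * h2

theorem tr_up (x : F) : (up x).1.trace = 0 := by
  rw [tr_zero_iff]; simp

theorem tr_one' : (1 : S2 F).1.trace = 0 := by
  rw [← up_zero]; exact tr_up 0

theorem sq_surj [Finite F] (a : F) : ∃ s : F, s * s = a := by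
  have hF : ringChar F = 2 := ringChar.eq F 2 ▸ rfl
  obtain ⟨s, hs⟩ := FiniteField.isSquare_of_char_two hF a
  exact ⟨s, hs.symm⟩

theorem sq_inj {a b : F} (h : a * a = b * b) : a = b := by
  have h2 : (2 : F) = 0 := CharTwo.two_eq_zero
  have : (a - b) ^ 2 = 0 := by linear_combination h + (b * b - a * b) * h2
  exact sub_eq_zero.mp (pow_eq_zero_iff two_ne_zero |>.mp this)

/-- an element `≠ 1` of trace `0` is conjugate to `up 1` -/
theorem conj_of_tr [Finite F] {g : S2 F} (h1 : g ≠ 1) (h0 : g.1.trace = 0) :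
    ∃ h : S2 F, h * g * h⁻¹ = up 1 := by
  rw [tr_zero_iff] at h0
  have h2 : (2 : F) = 0 := CharTwo.two_eq_zero
  have hd := det_eq g
  have key : ∃ k : S2 F, g * k = k * up 1 := by
    by_cases hc : g.1 1 0 = 0
    · have ha : g.1 0 0 = 1 := by
        apply sq_inj
        rw [hc, ← h0] at hd
        linear_combination hd
      have hb : g.1 0 1 ≠ 0 := by
        intro hb
        apply h1
        rw [← up_zero]
        exact ext4 (by simpa using ha) (by simpa using hb) (by simpa using hc)
          (by rw [← h0]; simpa using ha)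
      obtain ⟨s, hs⟩ := sq_surj (g.1 0 1)
      have hs0 : s ≠ 0 := by
        rintro rfl
        exact hb (by rw [← hs]; simp)
      refine ⟨mk4 s 0 0 s⁻¹ (by field_simp; ring), ext4 ?_ ?_ ?_ ?_⟩
      · simp [mul00, ha]
      · simp only [mul01, mk01, mk11, up01, up11, mk00, mul_zero, zero_add, add_zero,
          mul_one, ← hs]
        field_simp
      · simp [mul10, hc]
      · simp [mul11, ← h0, ha]
    · obtain ⟨s, hs⟩ := sq_surj (g.1 1 0)
      have hs0 : s ≠ 0 := by
        rintro rfl
        exact hc (by rw [← hs]; simp)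
      rw [← h0] at hd
      refine ⟨mk4 ((g.1 0 0 - 1) * s⁻¹) s⁻¹ (g.1 1 0 * s⁻¹) 0 ?_, ext4 ?_ ?_ ?_ ?_⟩
      · rw [← hs]
        field_simp
        linear_combination -s * h2
      · simp only [mul00, mk00, mk10, mk01, up00, up10]
        linear_combination s⁻¹ * hd + (g.1 0 1 * g.1 1 0 * s⁻¹ + s⁻¹ - g.1 0 0 * s⁻¹) * h2
      · simp only [mul01, mk01, mk11, mk00, up01, up11]
        ring_nf
      · simp only [mul10, mk00, mk10, up00, up10, mk11, ← h0]
        linear_combination g.1 1 0 * s⁻¹ * (g.1 0 0 - 1) * h2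
      · simp only [mul11, mk01, mk11, mk10, up01, up11]
        ring
  obtain ⟨k, hk⟩ := key
  refine ⟨k⁻¹, ?_⟩
  rw [inv_inv, mul_assoc, hk, inv_mul_cancel_left]

omit [CharP F 2] in
theorem tr_conj (h g : S2 F) : (h * g * h⁻¹).1.trace = g.1.trace := by
  rw [Matrix.SpecialLinearGroup.coe_mul, Matrix.SpecialLinearGroup.coe_mul, Matrix.trace_mul_cycle,
    ← Matrix.SpecialLinearGroup.coe_mul, inv_mul_cancel, Matrix.SpecialLinearGroup.coe_one, one_mul]

/-- there are `q²` elements of trace `0` -/
theorem card_tr_zero [Finite F] : Nat.card {g : S2 F // g.1.trace = 0} = Nat.card F ^ 2 := by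
  have h2 : (2 : F) = 0 := CharTwo.two_eq_zero
  have : Function.Bijective (fun g : {g : S2 F // g.1.trace = 0} => (g.1.1 0 1, g.1.1 1 0)) := by
    constructor
    · rintro ⟨g, hg⟩ ⟨h, hh⟩ he
      simp only [Prod.mk.injEq] at he
      rw [tr_zero_iff] at hg hh
      have e1 := det_eq g
      have e2 := det_eq h
      rw [← hg, he.1, he.2] at e1
      rw [← hh] at e2
      have : g.1 0 0 = h.1 0 0 := sq_inj (by linear_combination e1 - e2)
      exact Subtype.ext (ext4 this he.1 he.2 (by rw [← hg, ← hh]; exact this))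
    · rintro ⟨b, c⟩
      obtain ⟨s, hs⟩ := sq_surj (1 + b * c)
      refine ⟨⟨mk4 s b c s (by rw [hs]; ring), ?_⟩, rfl⟩
      rw [tr_zero_iff]; rfl
  rw [Nat.card_congr (Equiv.ofBijective _ this), Nat.card_prod, sq]

instance finS2 [Finite F] : Finite (S2 F) := by
  unfold S2 Matrix.SpecialLinearGroup
  infer_instance

/-- for `g, g' ≠ 1` of trace `0` there are `q` elements `s` with `s g s⁻¹ = g'` -/
theorem card_transporter [Finite F] {g g' : S2 F} (h1 : g ≠ 1) (h0 : g.1.trace = 0)
    (h1' : g' ≠ 1) (h0' : g'.1.trace = 0) :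
    Nat.card {s : S2 F // s * g * s⁻¹ = g'} = Nat.card F := by
  obtain ⟨k, hk⟩ := conj_of_tr h1 h0
  obtain ⟨k', hk'⟩ := conj_of_tr h1' h0'
  have hg : g = k⁻¹ * up 1 * k := by rw [← hk]; group
  have hg' : g' = k'⁻¹ * up 1 * k' := by rw [← hk']; group
  symm
  refine Nat.card_congr (Equiv.ofBijective (fun x : F =>
    (⟨k'⁻¹ * up x * k, ?_⟩ : {s : S2 F // s * g * s⁻¹ = g'})) ⟨?_, ?_⟩)
  · rw [hg, hg']
    have : up x * up 1 = up 1 * up x := by rw [up_mul, up_mul, add_comm]
    calc k'⁻¹ * up x * k * (k⁻¹ * up 1 * k) * (k'⁻¹ * up x * k)⁻¹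
        = k'⁻¹ * (up x * up 1) * (up x)⁻¹ * k' := by group
      _ = k'⁻¹ * up 1 * k' := by rw [this]; group
  · intro x y h
    have h' := congrArg Subtype.val h
    have h'' : k'⁻¹ * up x * k = k'⁻¹ * up y * k := h'
    exact up_inj (mul_left_cancel (mul_right_cancel h''))
  · rintro ⟨s, hs⟩
    have : k' * s * k⁻¹ * up 1 = up 1 * (k' * s * k⁻¹) := by
      rw [hg, hg'] at hs
      have h3 : s * (k⁻¹ * up 1 * k) = k'⁻¹ * up 1 * k' * s := by
        rw [← hs]; group
      calc k' * s * k⁻¹ * up 1 = k' * (s * (k⁻¹ * up 1 * k)) * k⁻¹ := by group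
        _ = up 1 * (k' * s * k⁻¹) := by rw [h3]; group
    obtain ⟨y, hy⟩ := centr_up one_ne_zero this
    refine ⟨y, Subtype.ext ?_⟩
    change k'⁻¹ * up y * k = s
    rw [← hy]; group

theorem card_class [Finite F] :
    Nat.card {g : S2 F // g ≠ 1 ∧ g.1.trace = 0} + 1 = Nat.card F ^ 2 := by
  classical
  rw [← card_tr_zero]
  have := Fintype.ofFinite (S2 F)
  rw [Nat.card_eq_fintype_card, Nat.card_eq_fintype_card, Fintype.card_subtype,
    Fintype.card_subtype]
  have : (Finset.univ.filter fun g : S2 F => g.1.trace = 0)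
      = insert 1 (Finset.univ.filter fun g : S2 F => g ≠ 1 ∧ g.1.trace = 0) := by
    ext g
    simp only [Finset.mem_filter, Finset.mem_univ, true_and, Finset.mem_insert]
    constructor
    · intro h
      by_cases h1 : g = 1
      · exact Or.inl h1
      · exact Or.inr ⟨h1, h⟩
    · rintro (rfl | h)
      · exact tr_one'
      · exact h.2
  rw [this, Finset.card_insert_of_notMem (by simp)]

theorem card_S2 [Finite F] :
    Nat.card (S2 F) = Nat.card {g : S2 F // g ≠ 1 ∧ g.1.trace = 0} * Nat.card F := by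
  have e : S2 F ≃ Σ g : {g : S2 F // g ≠ 1 ∧ g.1.trace = 0}, {s : S2 F // s * up 1 * s⁻¹ = g.1} :=
    { toFun := fun s => ⟨⟨s * up 1 * s⁻¹, by
          intro h
          have : up (1 : F) = 1 := by
            calc up (1 : F) = s⁻¹ * (s * up 1 * s⁻¹) * s := by group
              _ = 1 := by rw [h]; group
          exact up_ne_one one_ne_zero this, by rw [tr_conj]; exact tr_up 1⟩, ⟨s, rfl⟩⟩
      invFun := fun x => x.2.1
      left_inv := fun s => rfl
      right_inv := by
        rintro ⟨⟨g, hg⟩, ⟨s, hs⟩⟩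
        simp only at hs
        subst hs
        rfl }
  have := Fintype.ofFinite {g : S2 F // g ≠ 1 ∧ g.1.trace = 0}
  rw [Nat.card_congr e, Nat.card_sigma, Finset.sum_congr rfl (fun g _ =>
    card_transporter (up_ne_one one_ne_zero) (tr_up 1) g.2.1 g.2.2), Finset.sum_const,
    Finset.card_univ, Nat.card_eq_fintype_card (α := {g : S2 F // g ≠ 1 ∧ g.1.trace = 0}),
    smul_eq_mul]

/-- `q` divides the number of elements of a given trace -/
theorem dvd_card_tr [Finite F] (c : F) : Nat.card F ∣ Nat.card {g : S2 F // g.1.trace = c} := by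
  by_cases hc : c = 0
  · subst hc
    rw [card_tr_zero]; exact dvd_pow_self _ two_ne_zero
  · let _ : MulAction (Multiplicative F) {g : S2 F // g.1.trace = c} :=
      { smul := fun x g => ⟨upH F x * g.1 * (upH F x)⁻¹, by rw [tr_conj]; exact g.2⟩
        one_smul := fun g => Subtype.ext (by
          change upH F 1 * g.1 * (upH F 1)⁻¹ = g.1
          rw [map_one]; group)
        mul_smul := fun x y g => Subtype.ext (by
          change upH F (x * y) * g.1 * (upH F (x * y))⁻¹
            = upH F x * (upH F y * g.1 * (upH F y)⁻¹) * (upH F x)⁻¹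
          rw [map_mul]; group) }
    have : Nat.card (Multiplicative F) = Nat.card F := Nat.card_congr Multiplicative.toAdd
    rw [← this]
    refine dvd_card_of_free _ _ ?_
    intro x g hx
    have h1 : upH F x * g.1 * (upH F x)⁻¹ = g.1 := congrArg Subtype.val hx
    by_contra hx1
    have hx0 : x.toAdd ≠ 0 := fun h => hx1 (Multiplicative.toAdd.injective h)
    have h2 : g.1 * up x.toAdd = up x.toAdd * g.1 := by
      have h3 : upH F x = up x.toAdd := rfl
      rw [h3] at h1
      calc g.1 * up x.toAdd = (up x.toAdd * g.1 * (up x.toAdd)⁻¹) * up x.toAdd := by rw [h1]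
        _ = _ := by group
    obtain ⟨y, hy⟩ := centr_up hx0 h2
    exact hc (by rw [← g.2, hy]; exact tr_up y)

end

end Pool.Agent.FrC
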