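import Pool.Agent.Lib.MP_305fdd_al.Fr.C.Cut
import Pool.Agent.Lib.MP_305fdd_al.Fr.C.Main

/-!
# One-edge splittings from the universal property of a graph of subgroups (block COUNT, helper16)
-/

set_option autoImplicit false

namespace Pool.Agent.FrC

open Pool.Agent.FrS

variable {Γ : Type} [Group Γ]

section

variable {S : GG Γ} {Q : Type} [Group Q]

theorem mkFam_cl {u : S.V} (P : Paths S u) (φ : cl S u →* Q) {h : PG S} (hp : PPth S u u h) :
    PG.toHom (mkFam P φ) h = φ ⟨h, hp⟩ := by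
  rw [mkFam_path P φ hp]
  congr 1
  apply Subtype.ext
  simp [P.h1]

/-- closed paths at `u` in `Γ` -/
def iCl (S : GG Γ) (u : S.V) : cl S u →* Γ := (PG.nat S).comp (cl S u).subtype

theorem iCl_apply (u : S.V) (h : cl S u) : iCl S u h = PG.nat S h.1 := rfl

/-- finitely many homomorphisms of the group of closed paths -/
theorem fin_cl (hfg : ∀ v, (S.G v).FG) (u : S.V) [Finite Q] : Finite (cl S u →* Q) := by
  obtain ⟨P⟩ := paths S u
  have hf : ∀ v, Finite (S.G v →* Q) := fun v => by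
    have : Group.FG (S.G v) := (Group.fg_iff_subgroup_fg _).mpr (hfg v)
    exact finite_hom (S.G v) Q
  refine Finite.of_injective (fun φ : cl S u →* Q =>
    ((fun w => (PG.toHom (mkFam P φ)).comp (PG.vx S w), (mkFam P φ).t) :
      (∀ w, S.G w →* Q) × (S.E → Q))) ?_
  intro φ φ' h
  simp only [Prod.mk.injEq] at h
  obtain ⟨h1, h2⟩ := h
  have key : ∀ {w : S.V} {g : PG S}, PPth S u w g →
      PG.toHom (mkFam P φ) g = PG.toHom (mkFam P φ') g := by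
    intro w g hg
    induction hg with
    | one => rw [map_one, map_one]
    | @grp v g x _ ih =>
      rw [map_mul, map_mul, ih]
      have h3 := congrArg (fun f : S.G v →* Q => f x) (congrFun h1 v)
      simp only [MonoidHom.comp_apply] at h3
      rw [h3]
    | @fwd g e _ ih =>
      rw [map_mul, map_mul, ih, PG.toHom_tl, PG.toHom_tl, h2]
    | @bwd g e _ ih =>
      rw [map_mul, map_mul, map_inv, map_inv, ih, PG.toHom_tl, PG.toHom_tl, h2]
  ext1 h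
  have h3 := key h.2
  rw [mkFam_cl P φ h.2, mkFam_cl P φ' h.2] at h3
  exact h3

/-- compatibility on a cyclic edge group -/
theorem compat_zpow {e₀ : S.E} {z : Γ} (hz : S.C e₀ = Subgroup.zpowers z)
    (F : GG.Fam (del S e₀) Q) (t₀ : Q)
    (h : F.r (S.a e₀) z = t₀ * F.r (S.b e₀) ((S.s e₀)⁻¹ * z * S.s e₀) * t₀⁻¹) :
    ∀ c ∈ S.C e₀, F.r (S.a e₀) c = t₀ * F.r (S.b e₀) ((S.s e₀)⁻¹ * c * S.s e₀) * t₀⁻¹ := by
  intro c hc
  have hzm : z ∈ S.C e₀ := by rw [hz]; exact Subgroup.mem_zpowers z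
  rw [hz] at hc
  obtain ⟨k, hk⟩ := Subgroup.mem_zpowers_iff.mp hc
  subst hk
  have hA := S.Ca e₀ hzm
  have hB := S.Cb e₀ z hzm
  have e1 : F.r (S.a e₀) (z ^ k) = (F.r (S.a e₀) z) ^ k := by
    have h1 := PG.toHom_vx F (S.a e₀) (⟨z, hA⟩ ^ k)
    rw [map_zpow, map_zpow, PG.toHom_vx] at h1
    exact h1.symm
  have e2 : F.r (S.b e₀) ((S.s e₀)⁻¹ * z ^ k * S.s e₀) =
      (F.r (S.b e₀) ((S.s e₀)⁻¹ * z * S.s e₀)) ^ k := by
    have h1 := PG.toHom_vx F (S.b e₀) (⟨(S.s e₀)⁻¹ * z * S.s e₀, hB⟩ ^ k)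
    rw [map_zpow, map_zpow, PG.toHom_vx] at h1
    rw [h1]
    congr 1
    change _ = ((S.s e₀)⁻¹ * z * S.s e₀) ^ k
    have h2 : (S.s e₀)⁻¹ * z * S.s e₀ = (S.s e₀)⁻¹ * z * ((S.s e₀)⁻¹)⁻¹ := by rw [inv_inv]
    rw [h2, conj_zpow, inv_inv]
  rw [e1, e2, h, conj_zpow]

end

section

variable {S : GG Γ} {F : Type} [CommRing F] [Algebra (ZMod 2) F]

/-- the second side in `Γ` -/
def iCb (S : GG Γ) (e₀ : S.E) : cl (del S e₀) (S.b e₀) →* Γ :=
  (MulAut.conj (S.s e₀)).toMonoidHom.comp (iCl (del S e₀) (S.b e₀))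

theorem iCb_apply (e₀ : S.E) (h : cl (del S e₀) (S.b e₀)) :
    iCb S e₀ h = S.s e₀ * PG.nat (del S e₀) h.1 * (S.s e₀)⁻¹ := rfl

/-- the generator in the first side -/
def zA {e₀ : S.E} {z : Γ} (hzm : z ∈ S.C e₀) : cl (del S e₀) (S.a e₀) :=
  ⟨PG.vx (del S e₀) (S.a e₀) ⟨z, S.Ca e₀ hzm⟩, PPth.vx _ _⟩

/-- the generator in the second side -/
def zC {e₀ : S.E} {z : Γ} (hzm : z ∈ S.C e₀) : cl (del S e₀) (S.b e₀) :=
  ⟨PG.vx (del S e₀) (S.b e₀) ⟨(S.s e₀)⁻¹ * z * S.s e₀, S.Cb e₀ z hzm⟩, PPth.vx _ _⟩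

theorem zAC {e₀ : S.E} {z : Γ} (hzm : z ∈ S.C e₀) :
    iCl (del S e₀) (S.a e₀) (zA hzm) = iCb S e₀ (zC hzm) := by
  rw [iCl_apply, iCb_apply]
  simp only [zA, zC]
  rw [PG.nat_vx, PG.nat_vx]
  group

theorem iA_zA {e₀ : S.E} {z : Γ} (hzm : z ∈ S.C e₀) :
    iCl (del S e₀) (S.a e₀) (zA hzm) = z := by
  rw [iCl_apply]
  simp only [zA]
  rw [PG.nat_vx]

/-- universal property, separating case -/
theorem am_univ (hU : S.UP) {e₀ : S.E} (hsep : ¬ Rch (del S e₀) (S.a e₀) (S.b e₀)) {z : Γ}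
    (hz : S.C e₀ = Subgroup.zpowers z) (hzm : z ∈ S.C e₀)
    (α : cl (del S e₀) (S.a e₀) →* S2 F) (γ : cl (del S e₀) (S.b e₀) →* S2 F)
    (hαγ : α (zA hzm) = γ (zC hzm)) :
    ∃! ρ : Γ →* S2 F, ρ.comp (iCl (del S e₀) (S.a e₀)) = α ∧ ρ.comp (iCb S e₀) = γ := by
  obtain ⟨P₀⟩ := paths (del S e₀) (S.a e₀)
  obtain ⟨P₁⟩ := paths (del S e₀) (S.b e₀)
  set F' : GG.Fam (del S e₀) (S2 F) := comb (S.a e₀) (mkFam P₀ α) (mkFam P₁ γ) with hF'
  have hA : ∀ (h : PG (del S e₀)) (hp : PPth (del S e₀) (S.a e₀) (S.a e₀) h),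
      PG.toHom F' h = α ⟨h, hp⟩ := by
    intro h hp
    rw [hF', comb_path _ _ hp, mkFam_cl P₀ α hp]
  have hC : ∀ (h : PG (del S e₀)) (hp : PPth (del S e₀) (S.b e₀) (S.b e₀) h),
      PG.toHom F' h = γ ⟨h, hp⟩ := by
    intro h hp
    rw [hF', comb_path' hsep _ _ hp, mkFam_cl P₁ γ hp]
  have hcm : F'.r (S.a e₀) z = 1 * F'.r (S.b e₀) ((S.s e₀)⁻¹ * z * S.s e₀) * 1⁻¹ := by
    have h1 := hA _ (zA hzm).2
    have h2 := hC _ (zC hzm).2
    have e1 : PG.toHom F' (zA hzm).1 = F'.r (S.a e₀) z := PG.toHom_vx F' _ _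
    have e2 : PG.toHom F' (zC hzm).1 = F'.r (S.b e₀) ((S.s e₀)⁻¹ * z * S.s e₀) :=
      PG.toHom_vx F' _ _
    rw [e1] at h1
    rw [e2] at h2
    rw [h1, h2, one_mul, inv_one, mul_one]
    exact hαγ
  obtain ⟨r, g, hrg⟩ := hU.ext F (glue e₀ F' 1 (compat_zpow hz F' 1 hcm))
  obtain ⟨hF1, hF2⟩ := glue_isOf hrg
  refine ⟨(MulAut.conj (g (S.a e₀))⁻¹).toMonoidHom.comp r, ⟨?_, ?_⟩, ?_⟩
  · ext1 h
    have h1 := isOf_path hF1 h.2
    rw [hA _ h.2] at h1
    change (g (S.a e₀))⁻¹ * r (PG.nat (del S e₀) h.1) * ((g (S.a e₀))⁻¹)⁻¹ = α h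
    rw [inv_inv]
    exact h1.symm
  · ext1 h
    have h1 := isOf_path hF1 h.2
    rw [hC _ h.2] at h1
    change (g (S.a e₀))⁻¹ * r (S.s e₀ * PG.nat (del S e₀) h.1 * (S.s e₀)⁻¹) *
      ((g (S.a e₀))⁻¹)⁻¹ = γ h
    have h2 : r (S.s e₀) = g (S.a e₀) * (g (S.b e₀))⁻¹ := by
      calc r (S.s e₀) = g (S.a e₀) * ((g (S.a e₀))⁻¹ * r (S.s e₀) * g (S.b e₀)) *
            (g (S.b e₀))⁻¹ := by group
        _ = _ := by rw [← hF2]; group
    rw [map_mul, map_mul, map_inv, h2]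
    calc _ = (g (S.b e₀))⁻¹ * r (PG.nat (del S e₀) h.1) * g (S.b e₀) := by group
      _ = _ := h1.symm
  · rintro ρ' ⟨h1, h2⟩
    set ρ : Γ →* S2 F := (MulAut.conj (g (S.a e₀))⁻¹).toMonoidHom.comp r with hρ
    have hρA : ρ.comp (iCl (del S e₀) (S.a e₀)) = α := by
      ext1 h
      have h1 := isOf_path hF1 h.2
      rw [hA _ h.2] at h1
      change (g (S.a e₀))⁻¹ * r (PG.nat (del S e₀) h.1) * ((g (S.a e₀))⁻¹)⁻¹ = α h
      rw [inv_inv]
      exact h1.symm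
    have hρC : ρ.comp (iCb S e₀) = γ := by
      ext1 h
      have h1 := isOf_path hF1 h.2
      rw [hC _ h.2] at h1
      change (g (S.a e₀))⁻¹ * r (S.s e₀ * PG.nat (del S e₀) h.1 * (S.s e₀)⁻¹) *
        ((g (S.a e₀))⁻¹)⁻¹ = γ h
      have h2 : r (S.s e₀) = g (S.a e₀) * (g (S.b e₀))⁻¹ := by
        calc r (S.s e₀) = g (S.a e₀) * ((g (S.a e₀))⁻¹ * r (S.s e₀) * g (S.b e₀)) *
              (g (S.b e₀))⁻¹ := by group
          _ = _ := by rw [← hF2]; group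
      rw [map_mul, map_mul, map_inv, h2]
      calc _ = (g (S.b e₀))⁻¹ * r (PG.nat (del S e₀) h.1) * g (S.b e₀) := by group
        _ = _ := h1.symm
    let H : Subgroup Γ := MonoidHom.eqLocus ρ' ρ
    have HA : ∀ p, PPth (del S e₀) (S.a e₀) (S.a e₀) p → PG.nat (del S e₀) p ∈ H := by
      intro p hp
      have e1 := congrArg (fun f => f ⟨p, hp⟩) (h1.trans hρA.symm)
      exact e1
    have HC : ∀ p, PPth (del S e₀) (S.b e₀) (S.b e₀) p →
        S.s e₀ * PG.nat (del S e₀) p * (S.s e₀)⁻¹ ∈ H := by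
      intro p hp
      have e1 := congrArg (fun f => f ⟨p, hp⟩) (h2.trans hρC.symm)
      exact e1
    have hsep' : ¬ Rch (del S e₀) (S.b e₀) (S.a e₀) := fun h => hsep h.symm
    have key : ∀ {w : S.V} {x : Γ}, S.Pth (S.a e₀) w x →
        (∀ p, PPth (del S e₀) (S.a e₀) w p → x * (PG.nat (del S e₀) p)⁻¹ ∈ H) ∧
        (∀ p, PPth (del S e₀) (S.b e₀) w p → x * (PG.nat (del S e₀) p)⁻¹ * (S.s e₀)⁻¹ ∈ H) := by
      intro w x hx
      induction hx with
      | one =>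
        refine ⟨fun p hp => ?_, fun p hp => absurd ⟨p, hp⟩ hsep'⟩
        rw [one_mul]
        exact inv_mem (HA p hp)
      | @grp v g x _ hxv ih =>
        have e1 : ∀ p : PG (del S e₀), g * x * (PG.nat (del S e₀) p)⁻¹ =
            g * (PG.nat (del S e₀) (p * PG.vx (del S e₀) v (⟨x, hxv⟩ : S.G v)⁻¹))⁻¹ := by
          intro p
          rw [map_mul, map_inv, map_inv, PG.nat_vx]; group
        refine ⟨fun p hp => ?_, fun p hp => ?_⟩
        · rw [e1 p]; exact ih.1 _ (hp.grp _)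
        · rw [e1 p]; exact ih.2 _ (hp.grp _)
      | @fwd g e _ ih =>
        by_cases he : e = e₀
        · subst he
          refine ⟨fun p hp => absurd ⟨p, hp⟩ hsep, fun p hp => ?_⟩
          have h3 := ih.1 1 (.one _)
          rw [map_one, inv_one, mul_one] at h3
          have h4 := H.mul_mem h3 (inv_mem (HC p hp))
          have h5 : g * S.s e * (PG.nat (del S e) p)⁻¹ * (S.s e)⁻¹ =
              g * (S.s e * PG.nat (del S e) p * (S.s e)⁻¹)⁻¹ := by group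
          rw [h5]; exact h4
        · have e1 : ∀ p : PG (del S e₀), g * S.s e * (PG.nat (del S e₀) p)⁻¹ =
              g * (PG.nat (del S e₀) (p * (PG.tl (del S e₀) ⟨e, he⟩)⁻¹))⁻¹ := by
            intro p
            rw [map_mul, map_inv, PG.nat_tl]
            change _ = g * (PG.nat (del S e₀) p * (S.s e)⁻¹)⁻¹
            group
          refine ⟨fun p hp => ?_, fun p hp => ?_⟩
          · rw [e1 p]; exact ih.1 _ (PPth.bwd (S := del S e₀) ⟨e, he⟩ hp)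
          · rw [e1 p]; exact ih.2 _ (PPth.bwd (S := del S e₀) ⟨e, he⟩ hp)
      | @bwd g e _ ih =>
        by_cases he : e = e₀
        · subst he
          refine ⟨fun p hp => ?_, fun p hp => absurd ⟨p, hp⟩ hsep'⟩
          have h3 := ih.2 1 (.one _)
          rw [map_one, inv_one, mul_one] at h3
          exact H.mul_mem h3 (inv_mem (HA p hp))
        · have e1 : ∀ p : PG (del S e₀), g * (S.s e)⁻¹ * (PG.nat (del S e₀) p)⁻¹ =
              g * (PG.nat (del S e₀) (p * PG.tl (del S e₀) ⟨e, he⟩))⁻¹ := by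
            intro p
            rw [map_mul, PG.nat_tl]
            change _ = g * (PG.nat (del S e₀) p * S.s e)⁻¹
            group
          refine ⟨fun p hp => ?_, fun p hp => ?_⟩
          · rw [e1 p]; exact ih.1 _ (PPth.fwd (S := del S e₀) ⟨e, he⟩ hp)
          · rw [e1 p]; exact ih.2 _ (PPth.fwd (S := del S e₀) ⟨e, he⟩ hp)
    ext1 x
    have h3 := (key (hU.gen (S.a e₀) (S.a e₀) x)).1 1 (.one _)
    rw [map_one, inv_one, mul_one] at h3
    exact h3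

end

end Pool.Agent.FrC
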