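import Pool.Agent.Lib.MP_305fdd_al.Fr.C.Split

/-!
# One-edge splittings, non-separating edges and root leaves (block COUNT, helper16)
-/

set_option autoImplicit false

namespace Pool.Agent.FrC

open Pool.Agent.FrS

variable {Γ : Type} [Group Γ]

section

variable {S : GG Γ} {F : Type} [CommRing F] [Algebra (ZMod 2) F]

/-- the generator at the second end, moved to the first end along the path `P.p (S.b e₀)` -/
def zB {e₀ : S.E} {z : Γ} (hzm : z ∈ S.C e₀) (P : Paths (del S e₀) (S.a e₀))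
    (hcon : Rch (del S e₀) (S.a e₀) (S.b e₀)) : cl (del S e₀) (S.a e₀) :=
  ⟨P.p (S.b e₀) * PG.vx (del S e₀) (S.b e₀) ⟨(S.s e₀)⁻¹ * z * S.s e₀, S.Cb e₀ z hzm⟩ *
    (P.p (S.b e₀))⁻¹, ((P.hp _ hcon).grp _).trans (P.hp _ hcon).symm⟩

/-- the stable letter -/
def stl (e₀ : S.E) (P : Paths (del S e₀) (S.a e₀)) : Γ :=
  S.s e₀ * (PG.nat (del S e₀) (P.p (S.b e₀)))⁻¹

theorem stl_conj {e₀ : S.E} {z : Γ} (hzm : z ∈ S.C e₀) (P : Paths (del S e₀) (S.a e₀))
    (hcon : Rch (del S e₀) (S.a e₀) (S.b e₀)) :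
    stl e₀ P * iCl (del S e₀) (S.a e₀) (zB hzm P hcon) * (stl e₀ P)⁻¹ =
      iCl (del S e₀) (S.a e₀) (zA hzm) := by
  rw [iCl_apply, iCl_apply]
  simp only [zA, zB, stl]
  rw [map_mul, map_mul, map_inv, PG.nat_vx, PG.nat_vx]
  group

/-- universal property, non-separating case -/
theorem hn_univ (hU : S.UP) {e₀ : S.E} (hcon : Rch (del S e₀) (S.a e₀) (S.b e₀)) {z : Γ}
    (hz : S.C e₀ = Subgroup.zpowers z) (hzm : z ∈ S.C e₀) (P : Paths (del S e₀) (S.a e₀))
    (α : cl (del S e₀) (S.a e₀) →* S2 F) (x : S2 F)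
    (hx : x * α (zB hzm P hcon) * x⁻¹ = α (zA hzm)) :
    ∃! ρ : Γ →* S2 F, ρ.comp (iCl (del S e₀) (S.a e₀)) = α ∧ ρ (stl e₀ P) = x := by
  set F' : GG.Fam (del S e₀) (S2 F) := mkFam P α with hF'
  have hA : ∀ (h : PG (del S e₀)) (hp : PPth (del S e₀) (S.a e₀) (S.a e₀) h),
      PG.toHom F' h = α ⟨h, hp⟩ := by
    intro h hp
    rw [hF', mkFam_cl P α hp]
  have hp1 : PG.toHom F' (P.p (S.b e₀)) = 1 := by
    rw [hF', mkFam_path P α (P.hp _ hcon), ← map_one α]
    congr 1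
    apply Subtype.ext
    simp
  have hcm : F'.r (S.a e₀) z = x * F'.r (S.b e₀) ((S.s e₀)⁻¹ * z * S.s e₀) * x⁻¹ := by
    have h1 := hA _ (zA hzm).2
    have h2 := hA _ (zB hzm P hcon).2
    have e1 : PG.toHom F' (zA hzm).1 = F'.r (S.a e₀) z := PG.toHom_vx F' _ _
    have e2 : PG.toHom F' (zB hzm P hcon).1 = F'.r (S.b e₀) ((S.s e₀)⁻¹ * z * S.s e₀) := by
      simp only [zB]
      rw [map_mul, map_mul, map_inv, hp1, inv_one, mul_one, one_mul]
      exact PG.toHom_vx F' _ _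
    rw [e1] at h1
    rw [e2] at h2
    rw [h1, h2]
    exact hx.symm
  obtain ⟨r, g, hrg⟩ := hU.ext F (glue e₀ F' x (compat_zpow hz F' x hcm))
  obtain ⟨hF1, hF2⟩ := glue_isOf hrg
  set ρ : Γ →* S2 F := (MulAut.conj (g (S.a e₀))⁻¹).toMonoidHom.comp r with hρ
  have hρa : ∀ y, ρ y = (g (S.a e₀))⁻¹ * r y * g (S.a e₀) := by
    intro y
    change (g (S.a e₀))⁻¹ * r y * ((g (S.a e₀))⁻¹)⁻¹ = _
    rw [inv_inv]
  have hρA : ρ.comp (iCl (del S e₀) (S.a e₀)) = α := by
    ext1 h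
    have h1 := isOf_path hF1 h.2
    rw [hA _ h.2] at h1
    rw [MonoidHom.comp_apply, iCl_apply, hρa]
    exact h1.symm
  have hρs : ρ (stl e₀ P) = x := by
    have h1 := isOf_path hF1 (P.hp _ hcon)
    rw [hp1] at h1
    rw [hρa]
    simp only [stl]
    rw [map_mul, map_inv]
    calc _ = ((g (S.a e₀))⁻¹ * r (S.s e₀) * g (S.b e₀)) *
          ((g (S.a e₀))⁻¹ * r (PG.nat (del S e₀) (P.p (S.b e₀))) * g (S.b e₀))⁻¹ := by group
      _ = x := by rw [← hF2, ← h1, inv_one, mul_one]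
  refine ⟨ρ, ⟨hρA, hρs⟩, ?_⟩
  rintro ρ' ⟨h1, h2⟩
  let H : Subgroup Γ := MonoidHom.eqLocus ρ' ρ
  have HA : ∀ p, PPth (del S e₀) (S.a e₀) (S.a e₀) p → PG.nat (del S e₀) p ∈ H := by
    intro p hp
    have e1 := congrArg (fun f => f ⟨p, hp⟩) (h1.trans hρA.symm)
    exact e1
  have Hs : stl e₀ P ∈ H := h2.trans hρs.symm
  have key : ∀ {w : S.V} {y : Γ}, S.Pth (S.a e₀) w y →
      ∀ p, PPth (del S e₀) (S.a e₀) w p → y * (PG.nat (del S e₀) p)⁻¹ ∈ H := by
    intro w y hy
    induction hy with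
    | one =>
      intro p hp
      rw [one_mul]
      exact inv_mem (HA p hp)
    | @grp v g x _ hxv ih =>
      intro p hp
      have e1 : g * x * (PG.nat (del S e₀) p)⁻¹ =
          g * (PG.nat (del S e₀) (p * PG.vx (del S e₀) v (⟨x, hxv⟩ : S.G v)⁻¹))⁻¹ := by
        rw [map_mul, map_inv, map_inv, PG.nat_vx]; group
      rw [e1]; exact ih _ (hp.grp _)
    | @fwd g e _ ih =>
      intro p hp
      by_cases he : e = e₀
      · subst he
        have h3 := ih 1 (.one _)
        rw [map_one, inv_one, mul_one] at h3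
        have h4 := HA _ ((P.hp _ hcon).trans hp.symm)
        have h5 : g * S.s e * (PG.nat (del S e) p)⁻¹ =
            g * stl e P * PG.nat (del S e) (P.p (S.b e) * p⁻¹) := by
          rw [map_mul, map_inv]
          simp only [stl]
          group
        rw [h5]
        exact H.mul_mem (H.mul_mem h3 Hs) h4
      · have e1 : g * S.s e * (PG.nat (del S e₀) p)⁻¹ =
            g * (PG.nat (del S e₀) (p * (PG.tl (del S e₀) ⟨e, he⟩)⁻¹))⁻¹ := by
          rw [map_mul, map_inv, PG.nat_tl]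
          change _ = g * (PG.nat (del S e₀) p * (S.s e)⁻¹)⁻¹
          group
        rw [e1]; exact ih _ (PPth.bwd (S := del S e₀) ⟨e, he⟩ hp)
    | @bwd g e _ ih =>
      intro p hp
      by_cases he : e = e₀
      · subst he
        have h3 := ih _ (P.hp _ hcon)
        have h5 : g * (S.s e)⁻¹ * (PG.nat (del S e) p)⁻¹ =
            g * (PG.nat (del S e) (P.p (S.b e)))⁻¹ * (stl e P)⁻¹ * (PG.nat (del S e) p)⁻¹ := by
          simp only [stl]
          group
        rw [h5]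
        exact H.mul_mem (H.mul_mem h3 (inv_mem Hs)) (inv_mem (HA p hp))
      · have e1 : g * (S.s e)⁻¹ * (PG.nat (del S e₀) p)⁻¹ =
            g * (PG.nat (del S e₀) (p * PG.tl (del S e₀) ⟨e, he⟩))⁻¹ := by
          rw [map_mul, PG.nat_tl]
          change _ = g * (PG.nat (del S e₀) p * S.s e)⁻¹
          group
        rw [e1]; exact ih _ (PPth.fwd (S := del S e₀) ⟨e, he⟩ hp)
  ext1 y
  have h3 := key (hU.gen (S.a e₀) (S.a e₀) y) 1 (.one _)
  rw [map_one, inv_one, mul_one] at h3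
  exact h3

end

/-- the group of closed paths at a vertex without edges which carries an infinite cyclic group -/
theorem leaf_hom {S : GG Γ} {v : S.V} (hl : ∀ e, S.a e ≠ v ∧ S.b e ≠ v) {β : Γ}
    (hG : S.G v = Subgroup.zpowers β) (hβ : ∀ k : ℤ, β ^ k = 1 → k = 0) (hβm : β ∈ S.G v)
    {Q : Type} [Group Q] :
    (∀ x : Q, ∃ γ : cl S v →* Q, γ ⟨PG.vx S v ⟨β, hβm⟩, PPth.vx _ _⟩ = x) ∧
    (∀ γ γ' : cl S v →* Q, γ ⟨PG.vx S v ⟨β, hβm⟩, PPth.vx _ _⟩ =
      γ' ⟨PG.vx S v ⟨β, hβm⟩, PPth.vx _ _⟩ → γ = γ') := by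
  classical
  constructor
  · intro x
    let f : Γ → Q := fun g => if h : ∃ k : ℤ, β ^ k = g then x ^ h.choose else 1
    have hf : ∀ k : ℤ, f (β ^ k) = x ^ k := by
      intro k
      have h : ∃ l : ℤ, β ^ l = β ^ k := ⟨k, rfl⟩
      have h1 : h.choose = k := by
        have h2 := h.choose_spec
        have h3 : β ^ (h.choose - k) = 1 := by rw [zpow_sub, h2, mul_inv_cancel]
        exact sub_eq_zero.mp (hβ _ h3)
      simp only [f]
      rw [dif_pos h, h1]
    let F : GG.Fam S Q :=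
      { r := fun w g => if w = v then f g else 1
        t := fun _ => 1
        mul := by
          intro w y hy y' hy'
          by_cases hw : w = v
          · subst hw
            rw [hG] at hy hy'
            obtain ⟨k, rfl⟩ := Subgroup.mem_zpowers_iff.mp hy
            obtain ⟨k', rfl⟩ := Subgroup.mem_zpowers_iff.mp hy'
            simp only [if_true]
            rw [← zpow_add, hf, hf, hf, zpow_add]
          · simp only [if_neg hw, mul_one]
        cm := by
          intro e c _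
          simp only [if_neg (hl e).1, if_neg (hl e).2]
          group }
    refine ⟨(PG.toHom F).comp (cl S v).subtype, ?_⟩
    change PG.toHom F (PG.vx S v ⟨β, hβm⟩) = x
    rw [PG.toHom_vx]
    change (if v = v then f β else 1) = x
    rw [if_pos rfl]
    have := hf 1
    rwa [zpow_one, zpow_one] at this
  · intro γ γ' h
    have key : ∀ {w : S.V} {g : PG S}, PPth S v w g → w = v ∧ ∃ k : ℤ,
        g = (PG.vx S v ⟨β, hβm⟩) ^ k := by
      intro w g hg
      induction hg with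
      | one => exact ⟨rfl, 0, by rw [zpow_zero]⟩
      | @grp u g y _ ih =>
        obtain ⟨hu, k, hk⟩ := ih
        subst hu
        refine ⟨rfl, ?_⟩
        have hy : y.1 ∈ Subgroup.zpowers β := by rw [← hG]; exact y.2
        obtain ⟨l, hl⟩ := Subgroup.mem_zpowers_iff.mp hy
        refine ⟨k + l, ?_⟩
        rw [zpow_add, ← hk, ← map_zpow]
        congr 2
        exact Subtype.ext hl.symm
      | fwd e _ ih => exact absurd ih.1 (hl e).1
      | bwd e _ ih => exact absurd ih.1 (hl e).2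
    ext1 g
    obtain ⟨_, k, hk⟩ := key g.2
    have h1 : g = (⟨PG.vx S v ⟨β, hβm⟩, PPth.vx _ _⟩ : cl S v) ^ k := Subtype.ext hk
    rw [h1, map_zpow, map_zpow, h]

end Pool.Agent.FrC
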